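import Pool.Agent.D0H25.Mathon.Defs

set_option autoImplicit false

/-!
A collineation mapping five points of one conic into another maps the first onto the second.
-/

namespace Pool.Agent.D0H25.Mathon

open scoped LinearAlgebra.Projectivization

variable {K : Type} [Field K] [Fintype K] [CharP K 2]

omit [Fintype K] in
theorem bezout_aux (g : Collineation K) (F F' : Conic K) (hl : F.lam ≠ 0) (hl' : F'.lam ≠ 0)
    (s t u : K) (hs : F.lam * s ^ 2 = F.α) (ht : F.lam * t ^ 2 = F.β) (hu : F.lam * u ^ 2 = 1)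
    (S : Finset K) (hS : 5 ≤ S.card)
    (h : ∀ X ∈ S, F'.form (g.e ![X ^ 2, 1, s * X ^ 2 + t + u * X]) = 0) :
    FormMap g F F' ∧ g.d ≠ 0 ∧ (g.e ![0, 0, 1]) 0 = 0 ∧ (g.e ![0, 0, 1]) 1 = 0 := by
  classical
  set m0 := g.e ![1, 0, 0] with hm0
  set m1 := g.e ![0, 1, 0] with hm1
  set m2 := g.e ![0, 0, 1] with hm2
  have hd : g.d = polar m0 m1 := rfl
  have hσl : g.σ F.lam ≠ 0 := by
    intro h0
    exact hl ((map_eq_zero_iff g.σ g.σ.injective).1 h0)
  set S' : Finset K := S.image g.σ with hS'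
  have hcard : 5 ≤ S'.card := by
    rw [hS', Finset.card_image_of_injective _ g.σ.injective]
    exact hS
  set s' := g.σ s with hs0
  set t' := g.σ t with ht0
  set u' := g.σ u with hu0
  have hs' : g.σ F.lam * s' ^ 2 = g.σ F.α := by rw [hs0, ← map_pow, ← map_mul, hs]
  have ht' : g.σ F.lam * t' ^ 2 = g.σ F.β := by rw [ht0, ← map_pow, ← map_mul, ht]
  have hu' : g.σ F.lam * u' ^ 2 = 1 := by rw [hu0, ← map_pow, ← map_mul, hu, map_one]
  have hune : u' ≠ 0 := by
    intro h0
    rw [h0] at hu'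
    simp at hu'
  have h2 : (2 : K) = 0 := CharTwo.two_eq_zero
  have hpoly : ∀ X ∈ S',
      (F'.form m0 + F'.form m2 * s' ^ 2 + polar m0 m2 * s') * X ^ 4 +
      (polar m0 m2 * u') * X ^ 3 +
      (F'.form m2 * u' ^ 2 + polar m0 m1 + polar m0 m2 * t' + polar m1 m2 * s') * X ^ 2 +
      (polar m1 m2 * u') * X +
      (F'.form m1 + F'.form m2 * t' ^ 2 + polar m1 m2 * t') = 0 := by
    intro X hX
    obtain ⟨Y, hY, rfl⟩ := Finset.mem_image.1 hX
    have h1 := h Y hY
    rw [apply_eq, form_add, form_add, polar_add_left, polar_smul, polar_smul, polar_smul,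
      form_smul, form_smul, form_smul] at h1
    rw [← hm0, ← hm1, ← hm2] at h1
    simp only [_root_.map_add, _root_.map_mul, _root_.map_pow, _root_.map_one] at h1
    rw [← hs0, ← ht0, ← hu0] at h1
    linear_combination h1 - (F'.form m2 * (s' * (g.σ Y) ^ 2 * t' + s' * (g.σ Y) ^ 2 * u' * (g.σ Y) +
      t' * u' * (g.σ Y))) * h2
  obtain ⟨e4, e3, e2, e1, e0⟩ := quartic_zero S' hcard _ _ _ _ _ hpoly
  have hB02 : polar m0 m2 = 0 := (mul_eq_zero.1 e3).resolve_right hune
  have hB12 : polar m1 m2 = 0 := (mul_eq_zero.1 e1).resolve_right hune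
  rw [hB02, zero_mul, add_zero] at e4
  rw [hB12, zero_mul, add_zero] at e0
  rw [hB02, hB12, zero_mul, zero_mul, add_zero, add_zero] at e2
  have hQ : F'.form m2 = polar m0 m1 * g.σ F.lam := by
    linear_combination (g.σ F.lam) * e2 - F'.form m2 * hu' - (polar m0 m1 * g.σ F.lam) * h2
  have hQ0 : F'.form m0 = polar m0 m1 * g.σ F.α := by
    rw [hQ] at e4
    linear_combination e4 - polar m0 m1 * hs' - (polar m0 m1 * g.σ F.α) * h2
  have hQ1 : F'.form m1 = polar m0 m1 * g.σ F.β := by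
    rw [hQ] at e0
    linear_combination e0 - polar m0 m1 * ht' - (polar m0 m1 * g.σ F.β) * h2
  have hmap : FormMap g F F' := by
    intro v
    have hv : v = ![v 0, v 1, v 2] := by
      funext i
      fin_cases i <;> rfl
    rw [hv, apply_eq, form_add, form_add, polar_add_left, polar_smul, polar_smul, polar_smul,
      form_smul, form_smul, form_smul, ← hm0, ← hm1, ← hm2, hQ0, hQ1, hQ, hB02, hB12, hd, form_vec]
    simp only [_root_.map_add, _root_.map_mul, _root_.map_pow]
    ring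
  have hc : polar m0 m1 ≠ 0 := hmap.d_ne hl'
  refine ⟨hmap, hc, ?_, ?_⟩
  · have h3 : polar m0 m1 * m2 0 = 0 := by
      have e5 : polar m0 m1 * m2 0 = m0 0 * polar m1 m2 + m1 0 * polar m0 m2 := by
        simp only [polar]
        linear_combination (-(m0 0 * m1 0 * m2 1)) * h2
      rw [e5, hB02, hB12]
      ring
    exact (mul_eq_zero.1 h3).resolve_left hc
  · have h3 : polar m0 m1 * m2 1 = 0 := by
      have e5 : polar m0 m1 * m2 1 = m1 1 * polar m0 m2 + m0 1 * polar m1 m2 := by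
        simp only [polar]
        linear_combination (-(m0 1 * m1 1 * m2 0)) * h2
      rw [e5, hB02, hB12]
      ring
    exact (mul_eq_zero.1 h3).resolve_left hc

theorem exists_param (F : Conic K) (hl : F.lam ≠ 0) : ∃ s t u : K, F.lam * s ^ 2 = F.α ∧
    F.lam * t ^ 2 = F.β ∧ F.lam * u ^ 2 = 1 := by
  obtain ⟨s, hs⟩ := exists_sqrt (F.α / F.lam)
  obtain ⟨t, ht⟩ := exists_sqrt (F.β / F.lam)
  obtain ⟨u, hu⟩ := exists_sqrt (1 / F.lam)
  refine ⟨s, t, u, ?_, ?_, ?_⟩
  · rw [hs]; field_simp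
  · rw [ht]; field_simp
  · rw [hu]; field_simp

omit [Fintype K] in
theorem param_form (F : Conic K) (s t u : K) (hs : F.lam * s ^ 2 = F.α)
    (ht : F.lam * t ^ 2 = F.β) (hu : F.lam * u ^ 2 = 1) (X : K) :
    F.form ![X ^ 2, 1, s * X ^ 2 + t + u * X] = 0 := by
  have h2 : (2 : K) = 0 := CharTwo.two_eq_zero
  rw [form_vec]
  linear_combination (X ^ 4) * hs + ht + X ^ 2 * hu +
    (F.α * X ^ 4 + X ^ 2 + F.β + F.lam * (s * X ^ 2 * t + s * X ^ 2 * u * X + t * u * X)) * h2

theorem vec_ne {K : Type} [Field K] (x z : K) : (![x, 1, z] : Fin 3 → K) ≠ 0 := by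
  intro h
  have := congrFun h 1
  simp at this

/-- If `g` maps every point of `F` into `F'` then the forms correspond. -/
theorem formMap_of_subset (hK : 4 < Fintype.card K) (g : Collineation K) (F F' : Conic K)
    (hl : F.lam ≠ 0) (hl' : F'.lam ≠ 0) (h : g.act '' F.points ⊆ F'.points) :
    FormMap g F F' ∧ g.d ≠ 0 ∧ (g.e ![0, 0, 1]) 0 = 0 ∧ (g.e ![0, 0, 1]) 1 = 0 := by
  obtain ⟨s, t, u, hs, ht, hu⟩ := exists_param F hl
  refine bezout_aux g F F' hl hl' s t u hs ht hu Finset.univ ?_ ?_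
  · rw [Finset.card_univ]
    exact hK
  · intro X _
    have h1 : Projectivization.mk K ![X ^ 2, 1, s * X ^ 2 + t + u * X] (vec_ne _ _) ∈ F.points :=
      (mk_mem_points _ _ _).2 (param_form F s t u hs ht hu X)
    have h3 := h ⟨_, h1, rfl⟩
    rw [act_mk, mk_mem_points] at h3
    exact h3

/-- For `|K| ≥ 32`, a collineation mapping an arc onto an arc maps conics onto conics. -/
theorem formMap_of_arc [Algebra (ZMod 2) K] (hK : 32 ≤ Fintype.card K) (g : Collineation K)
    {𝒞 𝒟 : Finset (Conic K)} (h𝒞 : IsMathonFamily 𝒞) (h𝒟 : IsMathonFamily 𝒟)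
    (h : g.act '' arc 𝒞 ⊆ arc 𝒟) (F : Conic K) (hF : F ∈ 𝒞) :
    ∃ F' ∈ 𝒟, FormMap g F F' ∧ g.d ≠ 0 ∧ (g.e ![0, 0, 1]) 0 = 0 ∧ (g.e ![0, 0, 1]) 1 = 0 := by
  classical
  obtain ⟨s, t, u, hs, ht, hu⟩ := exists_param F (h𝒞.lam_ne F hF)
  let pt : K → (Fin 3 → K) := fun X => ![X ^ 2, 1, s * X ^ 2 + t + u * X]
  have hpt : ∀ X, pt X ≠ 0 := fun X => vec_ne _ _
  let P : K → ℙ K (Fin 3 → K) := fun X => Projectivization.mk K (pt X) (hpt X)
  have hsq : Function.Injective (fun X : K => X ^ 2) := by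
    intro a b hab
    exact (frobenius_inj K 2) hab
  have hP : Function.Injective P := by
    intro X Y hXY
    rw [Projectivization.mk_eq_mk_iff] at hXY
    obtain ⟨a, ha⟩ := hXY
    have h1 := congrFun ha 1
    have h0 := congrFun ha 0
    simp only [pt, Pi.smul_apply, Matrix.cons_val_one, Matrix.cons_val_zero] at h1 h0
    have ha1 : (a : K) = 1 := by
      have : (a : K) * 1 = 1 := h1
      rwa [mul_one] at this
    have ha0 : (a : K) * Y ^ 2 = X ^ 2 := h0
    rw [ha1, one_mul] at ha0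
    exact (hsq ha0).symm
  -- the images of the points
  let Q : K → ℙ K (Fin 3 → K) := fun X => g.act (P X)
  have hQ : Function.Injective Q := (act_injective g).comp hP
  have hQa : ∀ X, Q X ∈ arc 𝒟 := by
    intro X
    apply h
    refine ⟨P X, Or.inr ⟨F, hF, ?_⟩, rfl⟩
    exact (mk_mem_points _ _ _).2 (param_form F s t u hs ht hu X)
  let T : Finset K := Finset.univ.filter (fun X => Q X ≠ nucleus K)
  have hT : 31 ≤ T.card := by
    have h1 : (Finset.univ.filter (fun X => ¬ (Q X ≠ nucleus K))).card ≤ 1 := by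
      rw [Finset.card_le_one]
      intro a ha b hb
      simp only [Finset.mem_filter, Finset.mem_univ, true_and, ne_eq, not_not] at ha hb
      exact hQ (ha.trans hb.symm)
    have h2 := Finset.card_filter_add_card_filter_not (s := (Finset.univ : Finset K))
      (fun X => Q X ≠ nucleus K)
    rw [Finset.card_univ] at h2
    have h3 : T.card = (Finset.univ.filter (fun X => Q X ≠ nucleus K)).card := rfl
    omega
  have hex : ∀ X ∈ T, ∃ F' ∈ 𝒟, Q X ∈ F'.points := by
    intro X hX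
    rcases hQa X with h1 | h1
    · exact absurd h1 (Finset.mem_filter.1 hX).2
    · exact h1
  have hnon : Nonempty (Conic K) := ⟨F⟩
  choose! f hf hf' using hex
  obtain ⟨F', hF', hlt⟩ := Finset.exists_lt_card_fiber_of_mul_lt_card_of_maps_to (n := 4) hf
    (by rw [h𝒟.card]; omega)
  refine ⟨F', hF', ?_⟩
  refine bezout_aux g F F' (h𝒞.lam_ne F hF) (h𝒟.lam_ne F' hF') s t u hs ht hu _ hlt ?_
  intro X hX
  obtain ⟨hXT, hfX⟩ := Finset.mem_filter.1 hX
  have h1 := hf' X hXT
  rw [hfX] at h1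
  have h2 : Q X = Projectivization.mk K (g.e (pt X)) (g.map_ne_zero (hpt X)) := act_mk _ _ _
  rw [h2, mk_mem_points] at h1
  exact h1

end Pool.Agent.D0H25.Mathon
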