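import Mathlib

set_option autoImplicit false

/-!
Mathon `8`-arcs in `PG(2, K)`: definitions and basic facts.
-/

namespace Pool.Agent.D0H25.Mathon

open scoped LinearAlgebra.Projectivization

section defs

variable (K : Type) [Field K]

/-- The parameters `(α, β, λ)` of the conic `F_{α,β,λ}`. -/
@[ext] structure Conic where
  /-- the parameter `α` -/
  α : K
  /-- the parameter `β` -/
  β : K
  /-- the parameter `λ` -/
  lam : K

variable {K}

/-- The quadratic form `α x² + xy + β y² + λ z²`. -/
def Conic.form (F : Conic K) (v : Fin 3 → K) : K :=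
  F.α * v 0 ^ 2 + v 0 * v 1 + F.β * v 1 ^ 2 + F.lam * v 2 ^ 2

/-- The points of the conic in `PG(2, K)`. -/
def Conic.points (F : Conic K) : Set (ℙ K (Fin 3 → K)) := {p | F.form p.rep = 0}

/-- The composition `F ⊕ F'`. -/
def Conic.oplus (F F' : Conic K) : Conic K :=
  ⟨(F.α * F.lam + F'.α * F'.lam) / (F.lam + F'.lam),
   (F.β * F.lam + F'.β * F'.lam) / (F.lam + F'.lam), F.lam + F'.lam⟩

/-- `𝒞` is a closed set of seven conics `F_{α,β,λ}` with `Tr(αβ) = 1` and `λ ≠ 0`. -/
structure IsMathonFamily [Algebra (ZMod 2) K] (𝒞 : Finset (Conic K)) : Prop where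
  trace : ∀ F ∈ 𝒞, Algebra.trace (ZMod 2) K (F.α * F.β) = 1
  lam_ne : ∀ F ∈ 𝒞, F.lam ≠ 0
  closed : ∀ F ∈ 𝒞, ∀ F' ∈ 𝒞, F ≠ F' → F.lam ≠ F'.lam ∧ F.oplus F' ∈ 𝒞
  card : 𝒞.card = 7

theorem nucleus_ne : (![0, 0, 1] : Fin 3 → K) ≠ 0 := by
  intro h
  have := congrFun h 2
  simp at this

variable (K)

/-- The common nucleus `F₀ = (0, 0, 1)` of the conics. -/
def nucleus : ℙ K (Fin 3 → K) := Projectivization.mk K ![0, 0, 1] nucleus_ne

variable {K}

/-- The point set consisting of `F₀` and the points of the conics of `𝒞`. -/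
def arc (𝒞 : Finset (Conic K)) : Set (ℙ K (Fin 3 → K)) :=
  {P | P = nucleus K ∨ ∃ F ∈ 𝒞, P ∈ F.points}

variable (K)

/-- A semilinear bijection of `K³`; these induce the elements of `PΓL(3, K)`. -/
structure Collineation where
  /-- the bijection -/
  e : (Fin 3 → K) ≃ (Fin 3 → K)
  /-- the companion automorphism -/
  σ : K ≃+* K
  map_add : ∀ u v, e (u + v) = e u + e v
  map_smul : ∀ (c : K) v, e (c • v) = σ c • e v

variable {K}

theorem Collineation.map_zero (g : Collineation K) : g.e 0 = 0 := by
  have := g.map_add 0 0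
  rw [add_zero] at this
  exact left_eq_add.1 this

theorem Collineation.map_ne_zero (g : Collineation K) {v : Fin 3 → K} (hv : v ≠ 0) :
    g.e v ≠ 0 := by
  intro h
  rw [← g.map_zero] at h
  exact hv (g.e.injective h)

/-- The action on the points of `PG(2, K)`. -/
noncomputable def Collineation.act (g : Collineation K) (p : ℙ K (Fin 3 → K)) :
    ℙ K (Fin 3 → K) :=
  Projectivization.mk K (g.e p.rep) (g.map_ne_zero p.rep_nonzero)

/-- The composition `g ∘ h`. -/
def Collineation.comp (g h : Collineation K) : Collineation K where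
  e := h.e.trans g.e
  σ := h.σ.trans g.σ
  map_add := by
    intro u v
    simp only [Equiv.trans_apply, h.map_add, g.map_add]
  map_smul := by
    intro c v
    simp only [Equiv.trans_apply, h.map_smul, g.map_smul, RingEquiv.trans_apply]

/-- The inverse of a collineation. -/
def Collineation.inv (g : Collineation K) : Collineation K where
  e := g.e.symm
  σ := g.σ.symm
  map_add := by
    intro u v
    apply g.e.injective
    simp only [g.map_add, Equiv.apply_symm_apply]
  map_smul := by
    intro c v
    apply g.e.injective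
    simp only [g.map_smul, Equiv.apply_symm_apply, RingEquiv.apply_symm_apply]

/-- The identity. -/
def Collineation.one : Collineation K where
  e := Equiv.refl _
  σ := RingEquiv.refl _
  map_add := fun _ _ => rfl
  map_smul := fun _ _ => rfl

theorem act_mk (g : Collineation K) (v : Fin 3 → K) (hv : v ≠ 0) :
    g.act (Projectivization.mk K v hv) = Projectivization.mk K (g.e v) (g.map_ne_zero hv) := by
  rw [Collineation.act, Projectivization.mk_eq_mk_iff]
  obtain ⟨a, ha⟩ := Projectivization.exists_smul_eq_mk_rep K v hv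
  refine ⟨Units.map g.σ.toRingHom.toMonoidHom a, ?_⟩
  rw [← ha]
  exact (g.map_smul (a : K) v).symm

theorem act_comp (g h : Collineation K) (P : ℙ K (Fin 3 → K)) :
    (g.comp h).act P = g.act (h.act P) := by
  induction P using Projectivization.ind with | _ v hv =>
  rw [act_mk, act_mk, act_mk]
  rfl

theorem act_inv (g : Collineation K) (P : ℙ K (Fin 3 → K)) : g.inv.act (g.act P) = P := by
  induction P using Projectivization.ind with | _ v hv =>
  rw [act_mk, act_mk]
  congr 1
  exact g.e.symm_apply_apply v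

theorem act_inv' (g : Collineation K) (P : ℙ K (Fin 3 → K)) : g.act (g.inv.act P) = P := by
  induction P using Projectivization.ind with | _ v hv =>
  rw [act_mk, act_mk]
  congr 1
  exact g.e.apply_symm_apply v

theorem act_one (P : ℙ K (Fin 3 → K)) : Collineation.one.act P = P := by
  induction P using Projectivization.ind with | _ v hv =>
  rw [act_mk]
  rfl

theorem act_injective (g : Collineation K) : Function.Injective g.act := by
  intro P Q h
  rw [← act_inv g P, ← act_inv g Q, h]

theorem image_comp (g h : Collineation K) (S : Set (ℙ K (Fin 3 → K))) :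
    (g.comp h).act '' S = g.act '' (h.act '' S) := by
  rw [Set.image_image]
  exact Set.image_congr fun P _ => act_comp g h P

theorem image_inv (g : Collineation K) (S : Set (ℙ K (Fin 3 → K))) :
    g.inv.act '' (g.act '' S) = S := by
  rw [Set.image_image]
  simp only [act_inv, Set.image_id']

theorem image_inv' (g : Collineation K) (S : Set (ℙ K (Fin 3 → K))) :
    g.act '' (g.inv.act '' S) = S := by
  rw [Set.image_image]
  simp only [act_inv', Set.image_id']

theorem image_one (S : Set (ℙ K (Fin 3 → K))) : Collineation.one.act '' S = S := by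
  simp only [act_one, Set.image_id']

/-- A set of points `S` is of Denniston type if some collineation maps it onto an arc whose
conics are `F_{α,1,λ}` with a fixed `α` (and with `λ` running over the nonzero elements of an
additive group of order `8`, which follows from the closedness of `𝒟`). -/
def IsDenniston [Algebra (ZMod 2) K] (S : Set (ℙ K (Fin 3 → K))) : Prop :=
  ∃ (𝒟 : Finset (Conic K)) (a : K) (g : Collineation K), IsMathonFamily 𝒟 ∧
    (∀ F ∈ 𝒟, F.α = a ∧ F.β = 1) ∧ g.act '' S = arc 𝒟

/-- `π` is an automorphism of the Fano plane with point set `𝒞` and lines `{F, F', F ⊕ F'}`. -/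
def IsFanoAut (𝒞 : Finset (Conic K)) (π : Equiv.Perm 𝒞) : Prop :=
  ∀ F F' F'' : 𝒞, F ≠ F' → F''.1 = F.1.oplus F'.1 → (π F'').1 = (π F).1.oplus (π F').1

/-- The group induced on the seven conics `p(F)`, `F ∈ 𝒞`, of the arc `p(arc 𝒞)`: the
permutations `π` of `𝒞` such that some collineation `g` stabilises the arc `p(arc 𝒞)` and maps
`p(F)` onto `p(π F)` for every `F ∈ 𝒞`. -/
def inducedGroup (𝒞 : Finset (Conic K)) (p : Collineation K) : Subgroup (Equiv.Perm 𝒞) where
  carrier := {π | ∃ g : Collineation K, g.act '' (p.act '' arc 𝒞) = p.act '' arc 𝒞 ∧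
    ∀ F : 𝒞, g.act '' (p.act '' F.1.points) = p.act '' (π F).1.points}
  mul_mem' := by
    rintro π ρ ⟨g, hg, hg'⟩ ⟨h, hh, hh'⟩
    refine ⟨g.comp h, ?_, ?_⟩
    · rw [image_comp, hh, hg]
    · intro F
      rw [image_comp, hh' F, hg' (ρ F)]
      rfl
  one_mem' := ⟨Collineation.one, image_one _, fun F => image_one _⟩
  inv_mem' := by
    rintro π ⟨g, hg, hg'⟩
    refine ⟨g.inv, ?_, ?_⟩
    · conv_lhs => rw [← hg]
      rw [image_inv]
    · intro F
      have h1 := hg' (π⁻¹ F)
      have h2 : π (π⁻¹ F) = F := π.apply_symm_apply F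
      rw [h2] at h1
      rw [← h1, image_inv]

theorem mem_inducedGroup {𝒞 : Finset (Conic K)} {p : Collineation K} {π : Equiv.Perm 𝒞} :
    π ∈ inducedGroup 𝒞 p ↔ ∃ g : Collineation K, g.act '' (p.act '' arc 𝒞) = p.act '' arc 𝒞 ∧
    ∀ F : 𝒞, g.act '' (p.act '' F.1.points) = p.act '' (π F).1.points := Iff.rfl

end defs

section aux

variable {K : Type} [Field K]

theorem form_smul (F : Conic K) (c : K) (v : Fin 3 → K) :
    F.form (c • v) = c ^ 2 * F.form v := by
  simp only [Conic.form, Pi.smul_apply, smul_eq_mul]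
  ring

theorem mk_mem_points (F : Conic K) (v : Fin 3 → K) (hv : v ≠ 0) :
    Projectivization.mk K v hv ∈ F.points ↔ F.form v = 0 := by
  obtain ⟨a, ha⟩ := Projectivization.exists_smul_eq_mk_rep K v hv
  show F.form (Projectivization.mk K v hv).rep = 0 ↔ _
  rw [← ha]
  have h1 : (a • v) = (a : K) • v := rfl
  rw [h1, form_smul]
  simp

theorem form_nucleus (F : Conic K) : F.form ![0, 0, 1] = F.lam := by
  simp [Conic.form]

theorem form_vec (F : Conic K) (x y z : K) :
    F.form ![x, y, z] = F.α * x ^ 2 + x * y + F.β * y ^ 2 + F.lam * z ^ 2 := rfl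

theorem apply_eq (g : Collineation K) (x y z : K) :
    g.e ![x, y, z] = g.σ x • g.e ![1, 0, 0] + g.σ y • g.e ![0, 1, 0] + g.σ z • g.e ![0, 0, 1] := by
  rw [← g.map_smul, ← g.map_smul, ← g.map_smul, ← g.map_add, ← g.map_add]
  congr 1
  funext i
  fin_cases i <;> simp

/-- The polar form. -/
def polar (u v : Fin 3 → K) : K := u 0 * v 1 + u 1 * v 0

theorem polar_smul (a b : K) (u v : Fin 3 → K) : polar (a • u) (b • v) = a * b * polar u v := by
  simp only [polar, Pi.smul_apply, smul_eq_mul]
  ring

theorem polar_add_left (u u' v : Fin 3 → K) : polar (u + u') v = polar u v + polar u' v := by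
  simp only [polar, Pi.add_apply]
  ring

/-- The determinant of the upper left block. -/
def Collineation.d (g : Collineation K) : K := polar (g.e ![1, 0, 0]) (g.e ![0, 1, 0])

/-- `g` transforms the form of `F` into the form of `F'`. -/
def FormMap (g : Collineation K) (F F' : Conic K) : Prop :=
  ∀ v, F'.form (g.e v) = g.d * g.σ (F.form v)

theorem FormMap.d_ne {g : Collineation K} {F F' : Conic K} (h : FormMap g F F')
    (hl : F'.lam ≠ 0) : g.d ≠ 0 := by
  intro hd
  obtain ⟨v, hv⟩ := g.e.surjective ![0, 0, 1]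
  have h3 := h v
  rw [hv, hd, zero_mul, form_nucleus] at h3
  exact hl h3

theorem FormMap.iff {g : Collineation K} {F F' : Conic K} (h : FormMap g F F')
    (hl : F'.lam ≠ 0) (v : Fin 3 → K) : F'.form (g.e v) = 0 ↔ F.form v = 0 := by
  rw [h v, mul_eq_zero, or_iff_right (h.d_ne hl)]
  exact map_eq_zero_iff g.σ g.σ.injective

theorem FormMap.image {g : Collineation K} {F F' : Conic K} (h : FormMap g F F')
    (hl : F'.lam ≠ 0) : g.act '' F.points = F'.points := by
  ext P
  constructor
  · rintro ⟨Q, hQ, rfl⟩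
    induction Q using Projectivization.ind with | _ v hv =>
    rw [mk_mem_points] at hQ
    rw [act_mk, mk_mem_points, h.iff hl]
    exact hQ
  · intro hP
    refine ⟨g.inv.act P, ?_, act_inv' g P⟩
    induction P using Projectivization.ind with | _ v hv =>
    rw [mk_mem_points] at hP
    rw [act_mk, mk_mem_points, ← h.iff hl]
    have : g.e (g.inv.e v) = v := g.e.apply_symm_apply v
    rw [this]
    exact hP

variable [Fintype K] [CharP K 2]

theorem exists_sqrt (a : K) : ∃ b : K, b ^ 2 = a := by
  have h := FiniteField.isSquare_of_char_two (F := K) (ringChar.eq_iff.2 inferInstance) a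
  obtain ⟨b, hb⟩ := h
  exact ⟨b, by rw [hb]; ring⟩

omit [Fintype K] in
theorem add_self (a : K) : a + a = 0 := CharTwo.add_self_eq_zero a

omit [Fintype K] in
theorem form_add (F : Conic K) (u v : Fin 3 → K) :
    F.form (u + v) = F.form u + F.form v + polar u v := by
  have h2 : (2 : K) = 0 := CharTwo.two_eq_zero
  simp only [Conic.form, polar, Pi.add_apply]
  linear_combination (F.α * u 0 * v 0 + F.β * u 1 * v 1 + F.lam * u 2 * v 2) * h2

omit [Fintype K] [CharP K 2] in
theorem quartic_zero (S : Finset K) (hS : 5 ≤ S.card) (a4 a3 a2 a1 a0 : K)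
    (h : ∀ X ∈ S, a4 * X ^ 4 + a3 * X ^ 3 + a2 * X ^ 2 + a1 * X + a0 = 0) :
    a4 = 0 ∧ a3 = 0 ∧ a2 = 0 ∧ a1 = 0 ∧ a0 = 0 := by
  classical
  let P : Polynomial K := Polynomial.C a4 * Polynomial.X ^ 4 + Polynomial.C a3 * Polynomial.X ^ 3 +
    Polynomial.C a2 * Polynomial.X ^ 2 + Polynomial.C a1 * Polynomial.X + Polynomial.C a0
  have hdeg : P.natDegree ≤ 4 := by
    simp only [P]
    compute_degree
  have hP : P = 0 := by
    apply Polynomial.eq_zero_of_natDegree_lt_card_of_eval_eq_zero' P S
    · intro X hX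
      simpa [P] using h X hX
    · omega
  have h4 := congrArg (fun p => Polynomial.coeff p 4) hP
  have h3 := congrArg (fun p => Polynomial.coeff p 3) hP
  have h2 := congrArg (fun p => Polynomial.coeff p 2) hP
  have h1 := congrArg (fun p => Polynomial.coeff p 1) hP
  have h0 := congrArg (fun p => Polynomial.coeff p 0) hP
  simp [P, Polynomial.coeff_X, Polynomial.coeff_C, Polynomial.coeff_X_pow] at h4 h3 h2 h1 h0
  exact ⟨h4, h3, h2, h1, h0⟩

omit [Fintype K] [CharP K 2] in
/-- The consequences of a form relation for the matrix of `g`. -/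
theorem FormMap.coeffs {g : Collineation K} {F F' : Conic K} (h : FormMap g F F') :
    F'.form (g.e ![1, 0, 0]) = g.d * g.σ F.α ∧ F'.form (g.e ![0, 1, 0]) = g.d * g.σ F.β ∧
    F'.form (g.e ![0, 0, 1]) = g.d * g.σ F.lam := by
  refine ⟨?_, ?_, ?_⟩ <;> rw [h] <;> simp [Conic.form]

end aux

end Pool.Agent.D0H25.Mathon
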