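import Pool.Agent.D0H25.Mathon.Group

set_option autoImplicit false

/-!
For every `h` divisible by `7` there is a proper arc with induced group of order `7`.
-/

namespace Pool.Agent.D0H25.Mathon

open scoped LinearAlgebra.Projectivization

variable {K : Type} [Field K] [Fintype K] [Algebra (ZMod 2) K]

omit [Fintype K] in
/-- An element `v ≠ 0` with `v^{σ³} = v^σ + v`. -/
theorem exists_vec (s : K ≃ₐ[ZMod 2] K) (hs : orderOf s = 7) :
    ∃ v : K, v ≠ 0 ∧ (s ^ 3) v = s v + v := by
  have hchar : CharP K 2 := charTwo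
  have h2 : (2 : K) = 0 := CharTwo.two_eq_zero
  have hex : ∃ w : K, (s ^ 4) w + (s ^ 2) w + s w + w ≠ 0 := by
    by_contra hno
    push Not at hno
    have hli := linearIndependent_monoidHom K K
    let f : Fin 4 → (K →* K) := ![((s ^ 4 : K ≃ₐ[ZMod 2] K) : K →* K),
      ((s ^ 2 : K ≃ₐ[ZMod 2] K) : K →* K), ((s : K ≃ₐ[ZMod 2] K) : K →* K),
      ((1 : K ≃ₐ[ZMod 2] K) : K →* K)]
    have hcoe : ∀ a b : K ≃ₐ[ZMod 2] K, ((a : K →* K) = (b : K →* K)) → a = b := by
      intro a b hab
      ext x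
      exact DFunLike.congr_fun hab x
    have hpow : ∀ i j : ℕ, i < 7 → j < 7 → s ^ i = s ^ j → i = j := by
      intro i j hi hj hij
      exact pow_injOn_Iio_orderOf (x := s) (by rw [hs]; exact hi) (by rw [hs]; exact hj) hij
    have e1 : s = s ^ 1 := (pow_one s).symm
    have e0 : (1 : K ≃ₐ[ZMod 2] K) = s ^ 0 := (pow_zero s).symm
    have hf : Function.Injective f := by
      intro i j hij
      fin_cases i <;> fin_cases j
      · rfl
      · exact absurd (hpow 4 2 (by norm_num) (by norm_num) (hcoe _ _ hij)) (by norm_num)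
      · exact absurd (hpow 4 1 (by norm_num) (by norm_num) ((hcoe _ _ hij).trans e1)) (by norm_num)
      · exact absurd (hpow 4 0 (by norm_num) (by norm_num) ((hcoe _ _ hij).trans e0)) (by norm_num)
      · exact absurd (hpow 2 4 (by norm_num) (by norm_num) (hcoe _ _ hij)) (by norm_num)
      · rfl
      · exact absurd (hpow 2 1 (by norm_num) (by norm_num) ((hcoe _ _ hij).trans e1)) (by norm_num)
      · exact absurd (hpow 2 0 (by norm_num) (by norm_num) ((hcoe _ _ hij).trans e0)) (by norm_num)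
      · exact absurd (hpow 1 4 (by norm_num) (by norm_num) (e1.symm.trans (hcoe _ _ hij)))
          (by norm_num)
      · exact absurd (hpow 1 2 (by norm_num) (by norm_num) (e1.symm.trans (hcoe _ _ hij)))
          (by norm_num)
      · rfl
      · exact absurd (hpow 1 0 (by norm_num) (by norm_num)
          (e1.symm.trans ((hcoe _ _ hij).trans e0))) (by norm_num)
      · exact absurd (hpow 0 4 (by norm_num) (by norm_num) (e0.symm.trans (hcoe _ _ hij)))
          (by norm_num)
      · exact absurd (hpow 0 2 (by norm_num) (by norm_num) (e0.symm.trans (hcoe _ _ hij)))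
          (by norm_num)
      · exact absurd (hpow 0 1 (by norm_num) (by norm_num)
          (e0.symm.trans ((hcoe _ _ hij).trans e1))) (by norm_num)
      · rfl
    have h1 := hli.comp f hf
    rw [Fintype.linearIndependent_iff] at h1
    have h3 := h1 (fun _ => 1) (by
      funext w
      simp only [Finset.sum_apply, Pi.smul_apply, smul_eq_mul, one_mul, Function.comp,
        Pi.zero_apply]
      rw [Fin.sum_univ_four]
      exact hno w) 0
    exact one_ne_zero h3
  obtain ⟨w, hw⟩ := hex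
  refine ⟨(s ^ 4) w + (s ^ 2) w + s w + w, hw, ?_⟩
  have h7 : s ^ 7 = 1 := by rw [← hs]; exact pow_orderOf_eq_one s
  have hadd : ∀ (i j : ℕ) (x : K), (s ^ i) ((s ^ j) x) = (s ^ (i + j)) x := by
    intro i j x
    rw [pow_add]
    rfl
  have e1 : ∀ x, s x = (s ^ 1) x := fun x => by rw [pow_one]
  have e7 : (s ^ 7) w = w := by rw [h7]; rfl
  simp only [map_add]
  rw [e1 ((s ^ 4) w), e1 ((s ^ 2) w), e1 (s w), e1 w]
  simp only [hadd]
  norm_num only
  rw [e7]
  linear_combination ((s ^ 5) w * 0 - (s ^ 1) w - (s ^ 2) w) * h2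

section construction

variable (s : K ≃ₐ[ZMod 2] K) (v a : K)

/-- The conics of the example. -/
def cc (i : ℕ) : Conic K := ⟨a + ((s ^ i) v) ^ 3, 1, (s ^ i) v⟩

variable {s v a} (hs : orderOf s = 7) (hv : v ≠ 0) (hv3 : (s ^ 3) v = s v + v)

include hv in
omit [Fintype K] in
theorem ss_ne (i : ℕ) : (s ^ i) v ≠ 0 := by
  intro h
  exact hv ((map_eq_zero_iff (s ^ i) (s ^ i).injective).1 h)

include hv3 in
omit [Fintype K] in
theorem ss_rec (i : ℕ) : (s ^ (i + 3)) v = (s ^ (i + 1)) v + (s ^ i) v := by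
  have h1 : (s ^ (i + 3)) v = (s ^ i) ((s ^ 3) v) := by rw [pow_add]; rfl
  have h2 : (s ^ (i + 1)) v = (s ^ i) (s v) := by rw [pow_add, pow_one]; rfl
  rw [h1, h2, hv3, map_add]

include hs in
omit [Fintype K] in
theorem ss_mod (i : ℕ) : (s ^ (i % 7)) v = (s ^ i) v := by
  have h7 : s ^ 7 = 1 := by rw [← hs]; exact pow_orderOf_eq_one s
  conv_rhs => rw [← Nat.div_add_mod i 7, pow_add, pow_mul, h7, one_pow, one_mul]

include hv3 in
omit [Fintype K] in
theorem ss_add (i m : ℕ) (hm0 : 0 < m) (hm : m < 7) :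
    ∃ l : ℕ, (s ^ i) v + (s ^ (i + m)) v = (s ^ l) v := by
  have hchar : CharP K 2 := charTwo
  have h2 : (2 : K) = 0 := CharTwo.two_eq_zero
  have r0 := ss_rec hv3 i
  have r1 := ss_rec hv3 (i + 1)
  have r2 := ss_rec hv3 (i + 2)
  have r3 := ss_rec hv3 (i + 3)
  simp only [add_assoc] at r1 r2 r3
  norm_num only at r1 r2 r3
  have : m = 1 ∨ m = 2 ∨ m = 3 ∨ m = 4 ∨ m = 5 ∨ m = 6 := by omega
  rcases this with rfl | rfl | rfl | rfl | rfl | rfl
  · exact ⟨i + 3, by linear_combination -r0⟩
  · exact ⟨i + 6, by linear_combination -r3 - r1 - r0 - (s ^ (i + 1)) v * h2⟩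
  · exact ⟨i + 1, by linear_combination r0 + (s ^ i) v * h2⟩
  · exact ⟨i + 5, by linear_combination -r2 + r1 - r0⟩
  · exact ⟨i + 4, by linear_combination r2 - r1 + r0 + (s ^ i) v * h2⟩
  · exact ⟨i + 2, by linear_combination r3 + r1 + r0 + ((s ^ i) v + (s ^ (i + 1)) v) * h2⟩

include hs hv3 in
theorem ss_add' (i j : ℕ) (hi : i < 7) (hj : j < 7) (hij : i ≠ j) :
    ∃ l : ℕ, l < 7 ∧ (s ^ i) v + (s ^ j) v = (s ^ l) v := by
  rcases Nat.lt_or_gt_of_ne hij with h | h
  · obtain ⟨l, hl⟩ := ss_add hv3 i (j - i) (by omega) (by omega)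
    refine ⟨l % 7, Nat.mod_lt _ (by norm_num), ?_⟩
    rw [ss_mod hs, ← hl]
    congr 3
    omega
  · obtain ⟨l, hl⟩ := ss_add hv3 j (i - j) (by omega) (by omega)
    refine ⟨l % 7, Nat.mod_lt _ (by norm_num), ?_⟩
    rw [ss_mod hs, ← hl, add_comm]
    congr 3
    omega

include hs hv hv3 in
theorem ss_inj (i j : ℕ) (hi : i < 7) (hj : j < 7) (h : (s ^ i) v = (s ^ j) v) : i = j := by
  have hchar : CharP K 2 := charTwo
  by_contra hne
  obtain ⟨l, -, hl⟩ := ss_add' hs hv3 i j hi hj hne
  rw [h, CharTwo.add_self_eq_zero] at hl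
  exact ss_ne hv l hl.symm

variable (s v a) in
/-- The family. -/
noncomputable def fam : Finset (Conic K) := by
  classical
  exact (Finset.range 7).image (cc s v a)

omit [Fintype K] in
theorem mem_fam (F : Conic K) : F ∈ fam s v a ↔ ∃ i : ℕ, i < 7 ∧ cc s v a i = F := by
  classical
  simp only [fam, Finset.mem_image, Finset.mem_range]

include hs hv hv3 in
theorem fam_isMathon (ha : ∀ i : ℕ, Algebra.trace (ZMod 2) K (a + ((s ^ i) v) ^ 3) = 1) :
    IsMathonFamily (fam s v a) := by
  classical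
  have hchar : CharP K 2 := charTwo
  have h2 : (2 : K) = 0 := CharTwo.two_eq_zero
  refine ⟨?_, ?_, ?_, ?_⟩
  · intro F hF
    obtain ⟨i, hi, rfl⟩ := (mem_fam F).1 hF
    show Algebra.trace (ZMod 2) K ((a + ((s ^ i) v) ^ 3) * 1) = 1
    rw [mul_one, ha]
  · intro F hF
    obtain ⟨i, hi, rfl⟩ := (mem_fam F).1 hF
    exact ss_ne hv i
  · intro F hF F' hF' hne
    obtain ⟨i, hi, rfl⟩ := (mem_fam F).1 hF
    obtain ⟨j, hj, rfl⟩ := (mem_fam F').1 hF'
    have hij : i ≠ j := fun h => hne (by rw [h])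
    refine ⟨fun h => hij (ss_inj hs hv hv3 i j hi hj h), ?_⟩
    obtain ⟨l, hl, hsum⟩ := ss_add' hs hv3 i j hi hj hij
    rw [mem_fam]
    refine ⟨l, hl, ?_⟩
    have hl0 := ss_ne hv (s := s) l
    simp only [cc, Conic.oplus]
    ext
    · show a + ((s ^ l) v) ^ 3 = _
      show _ = ((a + ((s ^ i) v) ^ 3) * (s ^ i) v + (a + ((s ^ j) v) ^ 3) * (s ^ j) v) /
        ((s ^ i) v + (s ^ j) v)
      rw [eq_div_iff (by rw [hsum]; exact hl0), ← hsum]
      generalize (s ^ i) v = x
      generalize (s ^ j) v = y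
      linear_combination (2 * x ^ 3 * y + 3 * x ^ 2 * y ^ 2 + 2 * x * y ^ 3) * h2
    · show 1 = (1 * (s ^ i) v + 1 * (s ^ j) v) / ((s ^ i) v + (s ^ j) v)
      rw [one_mul, one_mul, div_self (by rw [hsum]; exact hl0)]
    · exact hsum.symm
  · show ((Finset.range 7).image (cc s v a)).card = 7
    rw [Finset.card_image_of_injOn, Finset.card_range]
    intro i hi j hj hij
    have h1 : (cc s v a i).lam = (cc s v a j).lam := by rw [hij]
    exact ss_inj hs hv hv3 i j (Finset.mem_range.1 hi) (Finset.mem_range.1 hj) h1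

variable (s) in
/-- The collineation `(x, y, z) ↦ (x^σ, y^σ, z^σ)`. -/
def frobCol : Collineation K where
  e :=
    { toFun := fun w i => s (w i)
      invFun := fun w i => s.symm (w i)
      left_inv := fun w => by funext i; exact s.symm_apply_apply (w i)
      right_inv := fun w => by funext i; exact s.apply_symm_apply (w i) }
  σ := s.toRingEquiv
  map_add := fun u w => by
    funext i
    exact map_add s (u i) (w i)
  map_smul := fun c w => by
    funext i
    exact map_mul s c (w i)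

variable (s) in
/-- The action on the parameters. -/
def mapConic (F : Conic K) : Conic K := ⟨s F.α, s F.β, s F.lam⟩

omit [Fintype K] in
theorem mapConic_form (F : Conic K) (w : Fin 3 → K) :
    (mapConic s F).form ((frobCol s).e w) = s (F.form w) := by
  show s F.α * (s (w 0)) ^ 2 + s (w 0) * s (w 1) + s F.β * (s (w 1)) ^ 2 +
    s F.lam * (s (w 2)) ^ 2 = _
  simp only [Conic.form, map_add, map_mul, map_pow]

omit [Fintype K] in
theorem mapConic_image (F : Conic K) :
    (frobCol s).act '' F.points = (mapConic s F).points := by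
  ext P
  constructor
  · rintro ⟨Q, hQ, rfl⟩
    induction Q using Projectivization.ind with | _ w hw =>
    rw [mk_mem_points] at hQ
    rw [act_mk, mk_mem_points, mapConic_form, hQ, map_zero]
  · intro hP
    refine ⟨(frobCol s).inv.act P, ?_, act_inv' _ P⟩
    induction P using Projectivization.ind with | _ w hw =>
    rw [mk_mem_points] at hP
    rw [act_mk, mk_mem_points]
    apply s.injective
    rw [← mapConic_form, map_zero]
    have : (frobCol s).e ((frobCol s).inv.e w) = w := (frobCol s).e.apply_symm_apply w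
    rw [this]
    exact hP

omit [Fintype K] in
theorem mapConic_cc (ha : s a = a) (i : ℕ) : mapConic s (cc s v a i) = cc s v a (i + 1) := by
  have h1 : s ((s ^ i) v) = (s ^ (i + 1)) v := by rw [pow_succ']; rfl
  simp only [mapConic, cc, map_add, map_pow, map_one, ha, h1]

include hs in
omit [Fintype K] in
theorem cc_mod (i : ℕ) : cc s v a (i % 7) = cc s v a i := by
  simp only [cc, ss_mod hs]

include hs in
theorem mapConic_mem (ha : s a = a) (F : Conic K) (hF : F ∈ fam s v a) :
    mapConic s F ∈ fam s v a := by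
  obtain ⟨i, hi, rfl⟩ := (mem_fam F).1 hF
  rw [mem_fam]
  refine ⟨(i + 1) % 7, Nat.mod_lt _ (by norm_num), ?_⟩
  rw [cc_mod hs, mapConic_cc ha]

include hs in
/-- The induced permutation of order `7`. -/
theorem exists_perm (ha : s a = a) (hv : v ≠ 0) (hv3 : (s ^ 3) v = s v + v) :
    ∃ π : Equiv.Perm (fam s v a), Acts (fam s v a) (frobCol s) π ∧ orderOf π = 7 := by
  classical
  have hchar : CharP K 2 := charTwo
  let f : fam s v a → fam s v a := fun F => ⟨mapConic s F.1, mapConic_mem hs ha F.1 F.2⟩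
  have hf : Function.Injective f := by
    intro F G h
    have h1 : mapConic s F.1 = mapConic s G.1 := congrArg Subtype.val h
    apply Subtype.ext
    ext
    · exact s.injective (congrArg Conic.α h1)
    · exact s.injective (congrArg Conic.β h1)
    · exact s.injective (congrArg Conic.lam h1)
  have hbij : Function.Bijective f := Finite.injective_iff_bijective.1 hf
  let π : Equiv.Perm (fam s v a) := Equiv.ofBijective f hbij
  have hπ : ∀ F, (π F).1 = mapConic s F.1 := fun F => rfl
  refine ⟨π, fun F => mapConic_image F.1, ?_⟩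
  have h7 : Fact (Nat.Prime 7) := ⟨by norm_num⟩
  have hpow : ∀ (n i : ℕ) (F : fam s v a), F.1 = cc s v a i → ((π ^ n) F).1 = cc s v a (i + n) := by
    intro n i F hF
    induction n with
    | zero => exact hF
    | succ m ih =>
      rw [pow_succ', Equiv.Perm.mul_apply, hπ, ih, mapConic_cc ha]
      rfl
  refine orderOf_eq_prime ?_ ?_
  · ext F : 1
    obtain ⟨i, hi, hF⟩ := (mem_fam F.1).1 F.2
    apply Subtype.ext
    rw [hpow 7 i F hF.symm, Equiv.Perm.one_apply, ← hF, ← cc_mod hs (i + 7), Nat.add_mod_right,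
      cc_mod hs]
  · intro h1
    have h0 : cc s v a 0 ∈ fam s v a := (mem_fam _).2 ⟨0, by norm_num, rfl⟩
    have h2 := hπ ⟨_, h0⟩
    rw [h1, Equiv.Perm.one_apply, mapConic_cc ha] at h2
    have h3 : (cc s v a 0).lam = (cc s v a (0 + 1)).lam := by rw [← h2]
    have h4 := ss_inj hs hv hv3 0 1 (by norm_num) (by norm_num) h3
    exact absurd h4 (by norm_num)

include hs hv hv3 in
/-- The example is proper. -/
theorem fam_proper (hK : 32 ≤ Fintype.card K)
    (ha : ∀ i : ℕ, Algebra.trace (ZMod 2) K (a + ((s ^ i) v) ^ 3) = 1) (p : Collineation K) :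
    ¬ IsDenniston (p.act '' arc (fam s v a)) := by
  classical
  have hchar : CharP K 2 := charTwo
  have hM := fam_isMathon hs hv hv3 ha
  rintro ⟨𝒟, b, g, h𝒟, hb, hg⟩
  set f := g.comp p with hf
  have hfa : f.act '' arc (fam s v a) = arc 𝒟 := by rw [hf, image_comp, hg]
  have hex := fun (F : Conic K) (hF : F ∈ fam s v a) =>
    formMap_of_arc hK f hM h𝒟 hfa.le F hF
  have h0 : cc s v a 0 ∈ fam s v a := (mem_fam _).2 ⟨0, by norm_num, rfl⟩
  obtain ⟨-, -, -, hd, h3, h4⟩ := hex _ h0
  set c := (f.e ![0, 0, 1]) 2 with hc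
  have hc0 : c ≠ 0 := by
    intro h5
    apply f.map_ne_zero nucleus_ne
    funext i
    fin_cases i
    · exact h3
    · exact h4
    · exact h5
  set m := f.e ![1, 0, 0] with hm
  set u := (b * m 0 ^ 2 + m 0 * m 1 + m 1 ^ 2) / f.d with hu
  set w := m 2 ^ 2 / c ^ 2 with hw
  have hu' : u * f.d = b * m 0 ^ 2 + m 0 * m 1 + m 1 ^ 2 := div_mul_cancel₀ _ hd
  have hw' : w * c ^ 2 = m 2 ^ 2 := div_mul_cancel₀ _ (pow_ne_zero 2 hc0)
  have hα : ∀ F ∈ fam s v a, F.α = f.σ.symm u + f.σ.symm w * F.lam := by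
    intro F hF
    obtain ⟨F', hF', hmap, -, -, -⟩ := hex F hF
    obtain ⟨c0, -, c2⟩ := hmap.coeffs
    rw [← hm] at c0
    rw [Conic.form, h3, h4, ← hc] at c2
    rw [Conic.form, (hb F' hF').1, (hb F' hF').2] at c0
    have h5 : f.σ F.α = u + w * f.σ F.lam := by
      apply mul_left_cancel₀ hd
      apply mul_left_cancel₀ (pow_ne_zero 2 hc0)
      linear_combination -(c ^ 2) * c0 - (c ^ 2) * hu' + w * c ^ 2 * c2 - (F'.lam * c ^ 2) * hw'
    apply f.σ.injective
    rw [h5, map_add, map_mul, RingEquiv.apply_symm_apply, RingEquiv.apply_symm_apply]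
  set S : Finset K := (Finset.range 7).image (fun i => (s ^ i) v) with hS
  have hScard : S.card = 7 := by
    rw [hS, Finset.card_image_of_injOn, Finset.card_range]
    intro i hi j hj hij
    exact ss_inj hs hv hv3 i j (Finset.mem_range.1 hi) (Finset.mem_range.1 hj) hij
  have hq := quartic_zero S (by rw [hScard]; norm_num) 0 1 0 (-f.σ.symm w) (a - f.σ.symm u) (by
    intro X hX
    obtain ⟨i, hi, rfl⟩ := Finset.mem_image.1 hX
    have h6 := hα (cc s v a i) ((mem_fam _).2 ⟨i, Finset.mem_range.1 hi, rfl⟩)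
    have h7 : a + ((s ^ i) v) ^ 3 = f.σ.symm u + f.σ.symm w * (s ^ i) v := h6
    linear_combination h7)
  exact one_ne_zero hq.2.1

end construction

/-- For `7 ∣ h` there is a proper arc whose induced group has order `7`. -/
theorem exists_seven (h7 : 7 ∣ Module.finrank (ZMod 2) K) :
    ∃ 𝒞 : Finset (Conic K), IsMathonFamily 𝒞 ∧ ∀ p : Collineation K,
      ¬ IsDenniston (p.act '' arc 𝒞) ∧ Nat.card (inducedGroup 𝒞 p) = 7 := by
  classical
  have hchar : CharP K 2 := charTwo
  have hp7 : Fact (Nat.Prime 7) := ⟨by norm_num⟩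
  have hcardK : 32 ≤ Fintype.card K := by
    have h1 := Module.card_eq_pow_finrank (K := ZMod 2) (V := K)
    rw [ZMod.card] at h1
    have h2 : 0 < Module.finrank (ZMod 2) K := Module.finrank_pos
    have h3 : 7 ≤ Module.finrank (ZMod 2) K := Nat.le_of_dvd h2 h7
    rw [h1]
    calc 32 ≤ 2 ^ 7 := by norm_num
      _ ≤ 2 ^ Module.finrank (ZMod 2) K := Nat.pow_le_pow_right (by norm_num) h3
  rw [← IsGalois.card_aut_eq_finrank (ZMod 2) K] at h7
  obtain ⟨s, hs⟩ := exists_prime_orderOf_dvd_card' (G := K ≃ₐ[ZMod 2] K) 7 h7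
  obtain ⟨v, hv, hv3⟩ := exists_vec s hs
  -- the constant
  obtain ⟨w, hw⟩ := Algebra.trace_surjective (ZMod 2) K (1 : ZMod 2)
  have htr : ∀ (t : K ≃ₐ[ZMod 2] K) (x : K), Algebra.trace (ZMod 2) K (t x) =
      Algebra.trace (ZMod 2) K x := fun t x => Algebra.trace_eq_of_algEquiv t x
  set b : K := ∑ i ∈ Finset.range 7, (s ^ i) w with hb
  have hsb : s b = b := by
    have h1 : s b = ∑ i ∈ Finset.range 7, (s ^ (i + 1)) w := by
      rw [hb, map_sum]
      refine Finset.sum_congr rfl fun i _ => ?_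
      rw [pow_succ']
      rfl
    have h2 : (s ^ 7) w = (s ^ 0) w := by
      have : s ^ 7 = 1 := by rw [← hs]; exact pow_orderOf_eq_one s
      rw [this, pow_zero]
    have h3 := Finset.sum_range_succ' (fun i => (s ^ i) w) 7
    rw [Finset.sum_range_succ, h2] at h3
    rw [h1, hb]
    exact (add_right_cancel h3).symm
  have htb : Algebra.trace (ZMod 2) K b = 1 := by
    rw [hb, map_sum]
    rw [Finset.sum_congr rfl (fun i _ => (htr (s ^ i) w).trans hw)]
    rw [Finset.sum_const, Finset.card_range]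
    decide
  set a : K := (1 + Algebra.trace (ZMod 2) K (v ^ 3)) • b with ha
  have hsa : s a = a := by rw [ha, map_smul, hsb]
  have hta : ∀ i : ℕ, Algebra.trace (ZMod 2) K (a + ((s ^ i) v) ^ 3) = 1 := by
    intro i
    rw [map_add, ← map_pow, htr, ha, map_smul, htb, smul_eq_mul, mul_one, add_assoc,
      zmod_add_self, add_zero]
  have hM := fam_isMathon hs hv hv3 hta
  refine ⟨fam s v a, hM, fun p => ?_⟩
  have hprop := fam_proper hs hv hv3 hcardK hta p
  refine ⟨hprop, ?_⟩
  obtain ⟨-, -, hcard⟩ := group_proper hM p hprop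
  obtain ⟨π, hπ, hord⟩ := exists_perm hs hsa hv hv3
  have hmem : π ∈ inducedGroup (fam s v a) p := (mem_inducedGroup_iff hM p π).2 ⟨_, hπ⟩
  have hdvd : 7 ∣ Nat.card (inducedGroup (fam s v a) p) := by
    have h1 : orderOf (⟨π, hmem⟩ : inducedGroup (fam s v a) p) = 7 := by
      rw [Subgroup.orderOf_mk, hord]
    rw [← h1]
    exact orderOf_dvd_natCard _
  simp only [Set.mem_insert_iff, Set.mem_singleton_iff] at hcard
  omega

end Pool.Agent.D0H25.Mathon
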