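import Pool.Agent.D0H25.Mathon.Bezout

set_option autoImplicit false

/-!
Facts on a closed family of seven conics.
-/

namespace Pool.Agent.D0H25.Mathon

open scoped LinearAlgebra.Projectivization

variable {K : Type} [Field K] [Fintype K] [Algebra (ZMod 2) K]

omit [Fintype K] in
theorem charTwo : CharP K 2 := charP_of_injective_algebraMap (algebraMap (ZMod 2) K).injective 2

theorem trace_sq (z : K) : Algebra.trace (ZMod 2) K (z ^ 2) = Algebra.trace (ZMod 2) K z := by
  have h := Algebra.trace_eq_of_algEquiv (FiniteField.frobeniusAlgEquivOfAlgebraic (ZMod 2) K) z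
  rw [FiniteField.coe_frobeniusAlgEquivOfAlgebraic] at h
  simpa [ZMod.card] using h

theorem zmod_add_self (z : ZMod 2) : z + z = 0 := by
  revert z
  decide

theorem elliptic {a b x y : K} (h : Algebra.trace (ZMod 2) K (a * b) = 1)
    (h0 : a * x ^ 2 + x * y + b * y ^ 2 = 0) : x = 0 ∧ y = 0 := by
  have hchar : CharP K 2 := charTwo
  have ha : a ≠ 0 := by
    rintro rfl
    simp at h
  by_cases hy : y = 0
  · subst hy
    have h1 : a * x ^ 2 = 0 := by linear_combination h0
    have h2 : x ^ 2 = 0 := (mul_eq_zero.1 h1).resolve_left ha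
    exact ⟨pow_eq_zero_iff (two_ne_zero) |>.1 h2, rfl⟩
  · exfalso
    have h2 : (2 : K) = 0 := CharTwo.two_eq_zero
    have e : a * b = (a * x / y) ^ 2 + a * x / y := by
      have h3 : b * y ^ 2 = a * x ^ 2 + x * y := by
        linear_combination h0 - (a * x ^ 2 + x * y) * h2
      field_simp
      linear_combination h3
    rw [e, map_add, trace_sq, zmod_add_self] at h
    exact zero_ne_one h

omit [Fintype K] [Algebra (ZMod 2) K] in
theorem oplus_form (F F' : Conic K) (h2 : (2 : K) = 0) (h : F.lam + F'.lam ≠ 0)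
    (w : Fin 3 → K) :
    (F.lam + F'.lam) * (F.oplus F').form w = F.lam * F.form w + F'.lam * F'.form w := by
  have h1 : (F.α * F.lam + F'.α * F'.lam) / (F.lam + F'.lam) * (F.lam + F'.lam) =
    (F.α * F.lam + F'.α * F'.lam) := div_mul_cancel₀ _ h
  have h3 : (F.β * F.lam + F'.β * F'.lam) / (F.lam + F'.lam) * (F.lam + F'.lam) =
    (F.β * F.lam + F'.β * F'.lam) := div_mul_cancel₀ _ h
  simp only [Conic.form, Conic.oplus]
  linear_combination w 0 ^ 2 * h1 + w 1 ^ 2 * h3 + F.lam * F'.lam * w 2 ^ 2 * h2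

variable {𝒞 : Finset (Conic K)} (h𝒞 : IsMathonFamily 𝒞)

include h𝒞

omit [Fintype K] in
theorem lam_inj {F F' : Conic K} (hF : F ∈ 𝒞) (hF' : F' ∈ 𝒞) (h : F.lam = F'.lam) : F = F' := by
  by_contra hne
  exact (h𝒞.closed F hF F' hF' hne).1 h

omit [Fintype K] in
theorem add_lam_ne {F F' : Conic K} (hF : F ∈ 𝒞) (hF' : F' ∈ 𝒞) (h : F ≠ F') :
    F.lam + F'.lam ≠ 0 := by
  have hchar : CharP K 2 := charTwo
  intro h0
  exact (h𝒞.closed F hF F' hF' h).1 (CharTwo.add_eq_zero.1 h0)

theorem card_ge : 8 ≤ Fintype.card K := by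
  classical
  have h1 : (𝒞.image Conic.lam).card = 7 := by
    rw [Finset.card_image_of_injOn, h𝒞.card]
    intro F hF F' hF' h
    exact lam_inj h𝒞 hF hF' h
  have h2 : (𝒞.image Conic.lam) ⊆ Finset.univ.erase 0 := by
    intro x hx
    obtain ⟨F, hF, rfl⟩ := Finset.mem_image.1 hx
    exact Finset.mem_erase.2 ⟨h𝒞.lam_ne F hF, Finset.mem_univ _⟩
  have h3 := Finset.card_le_card h2
  rw [Finset.card_erase_of_mem (Finset.mem_univ _), Finset.card_univ] at h3
  omega

/-- Two distinct conics of the family have no common point. -/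
theorem disjoint {F F' : Conic K} (hF : F ∈ 𝒞) (hF' : F' ∈ 𝒞) (hne : F ≠ F')
    {w : Fin 3 → K} (h : F.form w = 0) (h' : F'.form w = 0) : w = 0 := by
  have hchar : CharP K 2 := charTwo
  have h2 : (2 : K) = 0 := CharTwo.two_eq_zero
  have hs := add_lam_ne h𝒞 hF hF' hne
  set s := F.lam + F'.lam with hsdef
  set a := (F.α * F'.lam + F'.α * F.lam) / s with ha
  set b := (F.β * F'.lam + F'.β * F.lam) / s with hb
  have has : a * s = F.α * F'.lam + F'.α * F.lam := div_mul_cancel₀ _ hs
  have hbs : b * s = F.β * F'.lam + F'.β * F.lam := div_mul_cancel₀ _ hs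
  have hab : a * b = (F.oplus F').α * (F.oplus F').β + F.α * F.β + F'.α * F'.β := by
    simp only [Conic.oplus, ← hsdef]
    rw [ha, hb]
    field_simp
    rw [hsdef]
    linear_combination (-(F.lam ^ 2 * F.α * F.β) - F'.lam ^ 2 * F'.α * F'.β -
      F.lam * F'.lam * F.α * F.β - F.lam * F'.lam * F'.α * F'.β) * h2
  have htr : Algebra.trace (ZMod 2) K (a * b) = 1 := by
    rw [hab, map_add, map_add, h𝒞.trace F hF, h𝒞.trace F' hF',
      h𝒞.trace _ (h𝒞.closed F hF F' hF' hne).2]
    decide
  have h0 : a * w 0 ^ 2 + w 0 * w 1 + b * w 1 ^ 2 = 0 := by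
    apply mul_left_cancel₀ hs
    rw [mul_zero]
    have h1 : F'.lam * F.form w + F.lam * F'.form w = 0 := by rw [h, h']; ring
    rw [← h1]
    simp only [Conic.form]
    linear_combination w 0 ^ 2 * has + w 1 ^ 2 * hbs + (w 0 * w 1) * hsdef -
      (F.lam * F'.lam * w 2 ^ 2) * h2
  obtain ⟨hx, hy⟩ := elliptic htr h0
  have hz : w 2 = 0 := by
    have h1 : F.lam * w 2 ^ 2 = 0 := by
      rw [← h]
      simp only [Conic.form, hx, hy]
      ring
    exact pow_eq_zero_iff (two_ne_zero) |>.1 ((mul_eq_zero.1 h1).resolve_left (h𝒞.lam_ne F hF))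
  funext i
  fin_cases i
  · exact hx
  · exact hy
  · exact hz

omit h𝒞 in
/-- A family in which `α` and `β` are affine functions of `λ` is of Denniston type. -/
theorem denniston_of_affine (h𝒞 : IsMathonFamily 𝒞) (p : Collineation K) (f₁ f₂ h₁ h₂ : K)
    (hα : ∀ F ∈ 𝒞, F.α = f₁ + f₂ * F.lam) (hβ : ∀ F ∈ 𝒞, F.β = h₁ + h₂ * F.lam) :
    IsDenniston (p.act '' arc 𝒞) := by
  classical
  have hchar : CharP K 2 := charTwo
  have h2 : (2 : K) = 0 := CharTwo.two_eq_zero
  -- the trace of `f₁ h₁`
  have htr : Algebra.trace (ZMod 2) K (f₁ * h₁) = 1 := by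
    let ψ : K → ZMod 2 := fun l =>
      Algebra.trace (ZMod 2) K ((f₁ * h₂ + f₂ * h₁) * l) + Algebra.trace (ZMod 2) K (f₂ * h₂ * l ^ 2)
    have hψ : ∀ l l' : K, ψ (l + l') = ψ l + ψ l' := by
      intro l l'
      simp only [ψ]
      have e : (l + l') ^ 2 = l ^ 2 + l' ^ 2 := by linear_combination l * l' * h2
      rw [e, mul_add, mul_add, map_add, map_add]
      ring
    have hval : ∀ F ∈ 𝒞, Algebra.trace (ZMod 2) K (f₁ * h₁) + ψ F.lam = 1 := by
      intro F hF
      rw [← h𝒞.trace F hF, hα F hF, hβ F hF]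
      simp only [ψ]
      rw [← map_add, ← map_add]
      congr 1
      ring
    obtain ⟨F, hF, F', hF', hne⟩ := Finset.one_lt_card.1 (by rw [h𝒞.card]; norm_num : 1 < 𝒞.card)
    have e1 := hval F hF
    have e2 := hval F' hF'
    have e3 := hval _ (h𝒞.closed F hF F' hF' hne).2
    have e4 : (F.oplus F').lam = F.lam + F'.lam := rfl
    rw [e4, hψ] at e3
    clear hval hψ
    generalize Algebra.trace (ZMod 2) K (f₁ * h₁) = t at *
    generalize ψ F.lam = u at *
    generalize ψ F'.lam = v at *
    revert t u v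
    decide
  have hh₁ : h₁ ≠ 0 := by
    rintro rfl
    simp at htr
  obtain ⟨s, hs⟩ := exists_sqrt f₂
  obtain ⟨t, ht⟩ := exists_sqrt h₂
  obtain ⟨r, hr⟩ := exists_sqrt h₁
  have hr0 : r ≠ 0 := by
    rintro rfl
    apply hh₁
    rw [← hr]
    ring
  -- the new family
  let c : Conic K → Conic K := fun F => ⟨f₁ * h₁, 1, F.lam⟩
  have hcinj : Set.InjOn c 𝒞 := by
    intro F hF F' hF' h
    have h' : (c F).lam = (c F').lam := congrArg Conic.lam h
    exact lam_inj h𝒞 hF hF' h'
  let 𝒟 : Finset (Conic K) := 𝒞.image c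
  have h𝒟 : IsMathonFamily 𝒟 := by
    refine ⟨?_, ?_, ?_, ?_⟩
    · intro G hG
      obtain ⟨F, hF, rfl⟩ := Finset.mem_image.1 hG
      show Algebra.trace (ZMod 2) K (f₁ * h₁ * 1) = 1
      rw [mul_one, htr]
    · intro G hG
      obtain ⟨F, hF, rfl⟩ := Finset.mem_image.1 hG
      exact h𝒞.lam_ne F hF
    · intro G hG G' hG' hne
      obtain ⟨F, hF, rfl⟩ := Finset.mem_image.1 hG
      obtain ⟨F', hF', rfl⟩ := Finset.mem_image.1 hG'
      have hne' : F ≠ F' := fun h => hne (by rw [h])
      refine ⟨(h𝒞.closed F hF F' hF' hne').1, Finset.mem_image.2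
        ⟨_, (h𝒞.closed F hF F' hF' hne').2, ?_⟩⟩
      have hs := add_lam_ne h𝒞 hF hF' hne'
      simp only [c, Conic.oplus]
      ext
      · show f₁ * h₁ = (f₁ * h₁ * F.lam + f₁ * h₁ * F'.lam) / (F.lam + F'.lam)
        field_simp
      · show 1 = (1 * F.lam + 1 * F'.lam) / (F.lam + F'.lam)
        rw [one_mul, one_mul, div_self hs]
      · rfl
    · show (𝒞.image c).card = 7
      rw [Finset.card_image_of_injOn hcinj, h𝒞.card]
  -- the collineation
  let e : (Fin 3 → K) ≃ (Fin 3 → K) :=
    { toFun := fun v => ![v 0 / r, r * v 1, v 2 + s * v 0 + t * v 1]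
      invFun := fun v => ![r * v 0, v 1 / r, v 2 + s * (r * v 0) + t * (v 1 / r)]
      left_inv := by
        intro v
        funext i
        fin_cases i
        · show r * (v 0 / r) = v 0
          field_simp
        · show (r * v 1) / r = v 1
          field_simp
        · show v 2 + s * v 0 + t * v 1 + s * (r * (v 0 / r)) + t * ((r * v 1) / r) = v 2
          have e1 : r * (v 0 / r) = v 0 := by field_simp
          have e2 : (r * v 1) / r = v 1 := by field_simp
          rw [e1, e2]
          linear_combination (s * v 0 + t * v 1) * h2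
      right_inv := by
        intro v
        funext i
        fin_cases i
        · show r * v 0 / r = v 0
          field_simp
        · show r * (v 1 / r) = v 1
          field_simp
        · show v 2 + s * (r * v 0) + t * (v 1 / r) + s * (r * v 0) + t * (v 1 / r) = v 2
          linear_combination (s * (r * v 0) + t * (v 1 / r)) * h2 }
  let g : Collineation K :=
    { e := e
      σ := RingEquiv.refl K
      map_add := by
        intro u v
        funext i
        fin_cases i
        · show (u 0 + v 0) / r = u 0 / r + v 0 / r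
          ring
        · show r * (u 1 + v 1) = r * u 1 + r * v 1
          ring
        · show (u 2 + v 2) + s * (u 0 + v 0) + t * (u 1 + v 1) =
            (u 2 + s * u 0 + t * u 1) + (v 2 + s * v 0 + t * v 1)
          ring
      map_smul := by
        intro a v
        funext i
        fin_cases i
        · show (a * v 0) / r = a * (v 0 / r)
          ring
        · show r * (a * v 1) = a * (r * v 1)
          ring
        · show a * v 2 + s * (a * v 0) + t * (a * v 1) = a * (v 2 + s * v 0 + t * v 1)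
          ring }
  have hgform : ∀ F ∈ 𝒞, ∀ v, (c F).form (g.e v) = F.form v := by
    intro F hF v
    show f₁ * h₁ * (v 0 / r) ^ 2 + (v 0 / r) * (r * v 1) + 1 * (r * v 1) ^ 2 +
      F.lam * (v 2 + s * v 0 + t * v 1) ^ 2 = F.form v
    have e1 : (v 0 / r) ^ 2 * h₁ = v 0 ^ 2 := by
      rw [← hr]
      field_simp
    have e2 : (v 0 / r) * (r * v 1) = v 0 * v 1 := by field_simp
    rw [e2]
    simp only [Conic.form]
    rw [hα F hF, hβ F hF]
    linear_combination f₁ * e1 + F.lam * v 0 ^ 2 * hs + F.lam * v 1 ^ 2 * ht + v 1 ^ 2 * hr +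
      F.lam * (v 2 * s * v 0 + v 2 * t * v 1 + s * t * v 0 * v 1) * h2
  have hgim : ∀ F ∈ 𝒞, g.act '' F.points = (c F).points := by
    intro F hF
    ext P
    constructor
    · rintro ⟨Q, hQ, rfl⟩
      induction Q using Projectivization.ind with | _ v hv =>
      rw [mk_mem_points] at hQ
      rw [act_mk, mk_mem_points, hgform F hF]
      exact hQ
    · intro hP
      refine ⟨g.inv.act P, ?_, act_inv' g P⟩
      induction P using Projectivization.ind with | _ v hv =>
      rw [mk_mem_points] at hP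
      rw [act_mk, mk_mem_points, ← hgform F hF]
      have : g.e (g.inv.e v) = v := g.e.apply_symm_apply v
      rw [this]
      exact hP
  have hgnuc : g.act (nucleus K) = nucleus K := by
    rw [nucleus, act_mk]
    congr 1
    funext i
    fin_cases i
    · show (0 : K) / r = 0
      simp
    · show r * (0 : K) = 0
      simp
    · show (1 : K) + s * 0 + t * 0 = 1
      simp
  refine ⟨𝒟, f₁ * h₁, g.comp p.inv, h𝒟, ?_, ?_⟩
  · intro G hG
    obtain ⟨F, hF, rfl⟩ := Finset.mem_image.1 hG
    exact ⟨rfl, rfl⟩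
  · rw [image_comp, image_inv]
    ext P
    constructor
    · rintro ⟨Q, hQ | ⟨F, hF, hQ⟩, rfl⟩
      · left
        rw [hQ, hgnuc]
      · right
        refine ⟨c F, Finset.mem_image_of_mem c hF, ?_⟩
        rw [← hgim F hF]
        exact ⟨Q, hQ, rfl⟩
    · rintro (hP | ⟨G, hG, hP⟩)
      · exact ⟨nucleus K, Or.inl rfl, by rw [hgnuc, hP]⟩
      · obtain ⟨F, hF, rfl⟩ := Finset.mem_image.1 hG
        rw [← hgim F hF] at hP
        obtain ⟨Q, hQ, rfl⟩ := hP
        exact ⟨Q, Or.inr ⟨F, hF, hQ⟩, rfl⟩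

end Pool.Agent.D0H25.Mathon
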