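import Pool.Agent.D0H25.Mathon.Linear

set_option autoImplicit false

/-!
The induced group of a proper arc is cyclic of order `1, 2, 3, 4` or `7`, and its order divides
`h`.
-/

namespace Pool.Agent.D0H25.Mathon

open scoped LinearAlgebra.Projectivization

open Polynomial in
/-- A linear automorphism of a three-dimensional space over `GF(2)` satisfies `T³ = 1`, `T⁴ = 1`
or `T⁷ = 1`. -/
theorem end_order {V : Type} [AddCommGroup V] [Module (ZMod 2) V] [Module.Finite (ZMod 2) V]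
    (hV : Module.finrank (ZMod 2) V = 3) (T : V ≃ₗ[ZMod 2] V) :
    ((T : V →ₗ[ZMod 2] V) : Module.End (ZMod 2) V) ^ 3 = 1 ∨
    ((T : V →ₗ[ZMod 2] V) : Module.End (ZMod 2) V) ^ 4 = 1 ∨
    ((T : V →ₗ[ZMod 2] V) : Module.End (ZMod 2) V) ^ 7 = 1 := by
  set f : Module.End (ZMod 2) V := (T : V →ₗ[ZMod 2] V) with hf
  set p := f.charpoly with hp
  have hdeg : p.natDegree = 3 := by rw [hp, LinearMap.charpoly_natDegree, hV]
  have hmon : p.Monic := LinearMap.charpoly_monic f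
  have hc3 : p.coeff 3 = 1 := by
    have := hmon.coeff_natDegree
    rwa [hdeg] at this
  have hz : ∀ z : ZMod 2, z = 0 ∨ z = 1 := by decide
  have hc0 : p.coeff 0 = 1 := by
    rcases hz (p.coeff 0) with h | h
    · exfalso
      have h1 : IsUnit (LinearMap.det f) := T.isUnit_det'
      rw [LinearMap.det_eq_sign_charpoly_coeff, ← hp, h, mul_zero] at h1
      exact not_isUnit_zero h1
    · exact h
  have hpe : p = X ^ 3 + C (p.coeff 2) * X ^ 2 + C (p.coeff 1) * X + 1 := by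
    conv_lhs => rw [p.as_sum_range_C_mul_X_pow, hdeg]
    rw [Finset.sum_range_succ, Finset.sum_range_succ, Finset.sum_range_succ,
      Finset.sum_range_one, hc3, hc0]
    simp only [map_one, pow_zero, pow_one]
    ring
  have hae : aeval f p = 0 := LinearMap.aeval_self_charpoly f
  have hdvd : ∀ n : ℕ, p ∣ X ^ n - 1 → f ^ n = 1 := by
    rintro n ⟨q, hq⟩
    have h1 : aeval f (X ^ n - 1 : (ZMod 2)[X]) = 0 := by
      rw [hq, map_mul, hae, zero_mul]
    rw [map_sub, map_pow, aeval_X, map_one] at h1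
    exact sub_eq_zero.1 h1
  have h2 : (2 : (ZMod 2)[X]) = 0 := by
    have : ((2 : ℕ) : (ZMod 2)[X]) = 0 := CharP.cast_eq_zero _ 2
    exact_mod_cast this
  rcases hz (p.coeff 2) with ha | ha <;> rcases hz (p.coeff 1) with hb | hb
  · left
    apply hdvd
    refine ⟨1, ?_⟩
    rw [hpe, ha, hb]
    simp only [map_zero]
    linear_combination -h2
  · right; right
    apply hdvd
    refine ⟨X ^ 4 + X ^ 2 + X + 1, ?_⟩
    rw [hpe, ha, hb]
    simp only [map_zero, map_one]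
    linear_combination (-X ^ 5 - X ^ 4 - X ^ 3 - X ^ 2 - X - 1) * h2
  · right; right
    apply hdvd
    refine ⟨X ^ 4 + X ^ 3 + X ^ 2 + 1, ?_⟩
    rw [hpe, ha, hb]
    simp only [map_zero, map_one]
    linear_combination (-X ^ 6 - X ^ 5 - X ^ 4 - X ^ 3 - X ^ 2 - 1) * h2
  · right; left
    apply hdvd
    refine ⟨X + 1, ?_⟩
    rw [hpe, ha, hb]
    simp only [map_one]
    linear_combination (-X ^ 3 - X ^ 2 - X - 1) * h2

variable {K : Type} [Field K] [Fintype K] [Algebra (ZMod 2) K]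

variable {𝒞 : Finset (Conic K)}

/-- The additive group consisting of `0` and the seven values of `λ`. -/
def lamGroup (h𝒞 : IsMathonFamily 𝒞) : Submodule (ZMod 2) K where
  carrier := {a | a = 0 ∨ ∃ F ∈ 𝒞, F.lam = a}
  add_mem' := by
    rintro a b (rfl | ⟨F, hF, rfl⟩) (rfl | ⟨F', hF', rfl⟩)
    · left; rw [add_zero]
    · right; exact ⟨F', hF', by rw [zero_add]⟩
    · right; exact ⟨F, hF, by rw [add_zero]⟩
    · by_cases hne : F = F'
      · left
        subst hne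
        have : CharP K 2 := charTwo
        exact CharTwo.add_self_eq_zero _
      · right
        exact ⟨F.oplus F', (h𝒞.closed F hF F' hF' hne).2, rfl⟩
  zero_mem' := Or.inl rfl
  smul_mem' := by
    intro c a ha
    have : c = 0 ∨ c = 1 := by revert c; decide
    rcases this with rfl | rfl
    · left; rw [zero_smul]
    · rw [one_smul]; exact ha

omit [Fintype K] in
theorem card_lamGroup (h𝒞 : IsMathonFamily 𝒞) : Nat.card (lamGroup h𝒞) = 8 := by
  classical
  have h1 : ((lamGroup h𝒞 : Set K)) = ((insert 0 (𝒞.image Conic.lam) : Finset K) : Set K) := by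
    ext a
    simp only [Finset.coe_insert, Finset.coe_image, Set.mem_insert_iff, Set.mem_image,
      Finset.mem_coe]
    rfl
  have h2 : Nat.card (lamGroup h𝒞) = (insert 0 (𝒞.image Conic.lam) : Finset K).card := by
    have h3 : Nat.card (lamGroup h𝒞) = Nat.card ((lamGroup h𝒞 : Set K)) := rfl
    rw [h3, h1, Nat.card_coe_set_eq, Set.ncard_coe_finset]
  rw [h2, Finset.card_insert_of_notMem, Finset.card_image_of_injOn, h𝒞.card]
  · intro F hF F' hF' h
    exact lam_inj h𝒞 hF hF' h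
  · intro h
    obtain ⟨F, hF, h0⟩ := Finset.mem_image.1 h
    exact h𝒞.lam_ne F hF h0

theorem finrank_lamGroup (h𝒞 : IsMathonFamily 𝒞) :
    Module.finrank (ZMod 2) (lamGroup h𝒞) = 3 := by
  have hcard : Fintype.card (ZMod 2) = 2 := ZMod.card 2
  have : Fintype (lamGroup h𝒞) := Fintype.ofFinite _
  have h1 := Module.card_eq_pow_finrank (K := ZMod 2) (V := lamGroup h𝒞)
  rw [← Nat.card_eq_fintype_card, card_lamGroup, hcard] at h1
  have h2 : (2 : ℕ) ^ 3 = 2 ^ Module.finrank (ZMod 2) (lamGroup h𝒞) := by rw [← h1]; norm_num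
  exact (Nat.pow_right_injective le_rfl h2).symm

/-- The semilinear rule `λ ↦ k λ^σ` for the action on the parameters. -/
theorem Acts.lam' {g : Collineation K} {π : Equiv.Perm 𝒞} (h𝒞 : IsMathonFamily 𝒞)
    (h : Acts 𝒞 g π) : ∃ k : K, k ≠ 0 ∧ ∀ F : 𝒞, (π F).1.lam = k * g.σ F.1.lam := by
  obtain ⟨F₀⟩ : Nonempty 𝒞 := by
    rw [Finset.nonempty_coe_sort, ← Finset.card_pos, h𝒞.card]
    norm_num
  have hc := h.c_ne h𝒞 F₀
  have hd := (h.formMap h𝒞 F₀).2.1
  refine ⟨g.d / (g.e ![0, 0, 1]) 2 ^ 2, div_ne_zero hd (pow_ne_zero 2 hc), fun F => ?_⟩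
  have h5 := h.lam h𝒞 F
  field_simp
  linear_combination h5

omit [Fintype K] in
theorem ringEquiv_algebraMap (ρ : K ≃+* K) (r : ZMod 2) :
    ρ (algebraMap (ZMod 2) K r) = algebraMap (ZMod 2) K r := by
  have : r = 0 ∨ r = 1 := by revert r; decide
  rcases this with rfl | rfl <;> simp

/-- The companion automorphism as an element of the Galois group. -/
def toAlg (ρ : K ≃+* K) : K ≃ₐ[ZMod 2] K := AlgEquiv.ofRingEquiv (f := ρ) (ringEquiv_algebraMap ρ)

theorem acts_order (h𝒞 : IsMathonFamily 𝒞) {g : Collineation K} {π : Equiv.Perm 𝒞}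
    (h : Acts 𝒞 g π) : π ^ 3 = 1 ∨ π ^ 4 = 1 ∨ π ^ 7 = 1 := by
  obtain ⟨k, hk, hF⟩ := h.lam' h𝒞
  let TK : K →ₗ[ZMod 2] K := (LinearMap.mulLeft (ZMod 2) k) ∘ₗ (toAlg g.σ).toLinearMap
  have hTK : ∀ x, TK x = k * g.σ x := fun x => rfl
  have hmem : ∀ x ∈ lamGroup h𝒞, TK x ∈ lamGroup h𝒞 := by
    rintro x (rfl | ⟨F, hF', rfl⟩)
    · left; exact map_zero _
    · right
      exact ⟨(π ⟨F, hF'⟩).1, (π ⟨F, hF'⟩).2, hF ⟨F, hF'⟩⟩
  let T0 : lamGroup h𝒞 →ₗ[ZMod 2] lamGroup h𝒞 := TK.restrict hmem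
  have hT0 : ∀ x, ((T0 x : lamGroup h𝒞) : K) = k * g.σ (x : K) := fun x => rfl
  have hinj : Function.Injective T0 := by
    intro x y hxy
    have h1 : ((T0 x : lamGroup h𝒞) : K) = ((T0 y : lamGroup h𝒞) : K) := by rw [hxy]
    rw [hT0, hT0] at h1
    exact Subtype.ext (g.σ.injective (mul_left_cancel₀ hk h1))
  let T := LinearEquiv.ofInjectiveEndo T0 hinj
  have hTc : ((T : lamGroup h𝒞 →ₗ[ZMod 2] lamGroup h𝒞) : Module.End (ZMod 2) (lamGroup h𝒞)) = T0 := by
    ext x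
    rfl
  have hpow : ∀ (n : ℕ) (F : 𝒞), (((T0 : Module.End (ZMod 2) (lamGroup h𝒞)) ^ n)
      (⟨F.1.lam, Or.inr ⟨F.1, F.2, rfl⟩⟩ : lamGroup h𝒞) : K) = ((π ^ n) F).1.lam := by
    intro n
    induction n with
    | zero => intro F; rfl
    | succ m ih =>
      intro F
      rw [pow_succ', Module.End.mul_apply]
      have h1 := ih F
      have h2 : (((T0 : Module.End (ZMod 2) (lamGroup h𝒞)) ^ m)
        (⟨F.1.lam, Or.inr ⟨F.1, F.2, rfl⟩⟩ : lamGroup h𝒞)) =
        ⟨((π ^ m) F).1.lam, Or.inr ⟨_, ((π ^ m) F).2, rfl⟩⟩ := Subtype.ext h1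
      rw [h2, hT0, ← hF, pow_succ', Equiv.Perm.mul_apply]
  have hfin : ∀ n : ℕ, (T0 : Module.End (ZMod 2) (lamGroup h𝒞)) ^ n = 1 → π ^ n = 1 := by
    intro n hn
    ext F : 1
    apply Subtype.ext
    apply lam_inj h𝒞 ((π ^ n) F).2 F.2
    rw [← hpow n F, hn]
    rfl
  have h3 := end_order (finrank_lamGroup h𝒞) T
  rw [hTc] at h3
  rcases h3 with h4 | h4 | h4
  · exact Or.inl (hfin _ h4)
  · exact Or.inr (Or.inl (hfin _ h4))
  · exact Or.inr (Or.inr (hfin _ h4))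

theorem acts_fano (h𝒞 : IsMathonFamily 𝒞) {g : Collineation K} {π : Equiv.Perm 𝒞}
    (h : Acts 𝒞 g π) : IsFanoAut 𝒞 π := by
  obtain ⟨k, hk, hF⟩ := h.lam' h𝒞
  intro F F' F'' hne hF''
  have hne' : (π F).1 ≠ (π F').1 := by
    intro h1
    exact hne (π.injective (Subtype.ext h1))
  apply lam_inj h𝒞 (π F'').2 (h𝒞.closed _ (π F).2 _ (π F').2 hne').2
  show _ = (π F).1.lam + (π F').1.lam
  have h1 : F''.1.lam = F.1.lam + F'.1.lam := by rw [hF'']; rfl
  rw [hF, hF, hF, h1, map_add, mul_add]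

/-- The pairs (companion automorphism, induced permutation). -/
def pairGroup (𝒞 : Finset (Conic K)) : Subgroup ((K ≃ₐ[ZMod 2] K) × Equiv.Perm 𝒞) where
  carrier := {x | ∃ g : Collineation K, (∀ a, g.σ a = x.1 a) ∧ Acts 𝒞 g x.2}
  mul_mem' := by
    rintro x y ⟨g, hg, hg'⟩ ⟨f, hf, hf'⟩
    refine ⟨g.comp f, ?_, hg'.comp hf'⟩
    intro a
    show g.σ (f.σ a) = x.1 (y.1 a)
    rw [hf, hg]
  one_mem' := ⟨Collineation.one, fun a => rfl, fun F => image_one _⟩
  inv_mem' := by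
    rintro x ⟨g, hg, hg'⟩
    refine ⟨g.inv, ?_, hg'.inv⟩
    intro a
    show g.σ.symm a = x.1.symm a
    rw [RingEquiv.symm_apply_eq, hg]
    exact (x.1.apply_symm_apply a).symm

omit [Fintype K] in
theorem mem_pairGroup {x : (K ≃ₐ[ZMod 2] K) × Equiv.Perm 𝒞} :
    x ∈ pairGroup 𝒞 ↔ ∃ g : Collineation K, (∀ a, g.σ a = x.1 a) ∧ Acts 𝒞 g x.2 := Iff.rfl

/-- The induced group consists of the permutations induced by collineations that permute the
conics of `𝒞`. -/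
theorem mem_inducedGroup_iff (h𝒞 : IsMathonFamily 𝒞) (p : Collineation K) (π : Equiv.Perm 𝒞) :
    π ∈ inducedGroup 𝒞 p ↔ ∃ g : Collineation K, Acts 𝒞 g π := by
  constructor
  · rintro ⟨g, -, hg⟩
    refine ⟨p.inv.comp (g.comp p), fun F => ?_⟩
    rw [image_comp, image_comp, hg F, image_inv]
  · rintro ⟨g, hg⟩
    refine ⟨p.comp (g.comp p.inv), ?_, fun F => ?_⟩
    · rw [image_comp, image_comp, image_inv]
      congr 1
      obtain ⟨F₀⟩ : Nonempty 𝒞 := by
        rw [Finset.nonempty_coe_sort, ← Finset.card_pos, h𝒞.card]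
        norm_num
      obtain ⟨-, -, h3, h4⟩ := hg.formMap h𝒞 F₀
      have hc := hg.c_ne h𝒞 F₀
      have hnuc : g.act (nucleus K) = nucleus K := by
        rw [nucleus, act_mk, Projectivization.mk_eq_mk_iff]
        refine ⟨Units.mk0 _ hc, ?_⟩
        funext i
        fin_cases i
        · show (g.e ![0, 0, 1]) 2 * 0 = (g.e ![0, 0, 1]) 0
          rw [h3, mul_zero]
        · show (g.e ![0, 0, 1]) 2 * 0 = (g.e ![0, 0, 1]) 1
          rw [h4, mul_zero]
        · show (g.e ![0, 0, 1]) 2 * 1 = (g.e ![0, 0, 1]) 2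
          rw [mul_one]
      ext P
      constructor
      · rintro ⟨Q, hQ | ⟨F, hF, hQ⟩, rfl⟩
        · left
          rw [hQ, hnuc]
        · right
          refine ⟨(π ⟨F, hF⟩).1, (π ⟨F, hF⟩).2, ?_⟩
          rw [← hg ⟨F, hF⟩]
          exact ⟨Q, hQ, rfl⟩
      · rintro (hP | ⟨F, hF, hP⟩)
        · exact ⟨nucleus K, Or.inl rfl, by rw [hnuc, hP]⟩
        · have h5 := hg (π⁻¹ ⟨F, hF⟩)
          have h6 : π (π⁻¹ ⟨F, hF⟩) = ⟨F, hF⟩ := π.apply_symm_apply _
          rw [h6] at h5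
          have h7 : P ∈ g.act '' (π⁻¹ ⟨F, hF⟩).1.points := by
            rw [h5]
            exact hP
          obtain ⟨Q, hQ, rfl⟩ := h7
          exact ⟨Q, Or.inr ⟨_, (π⁻¹ ⟨F, hF⟩).2, hQ⟩, rfl⟩
    · rw [image_comp, image_comp, image_inv, hg F]

theorem proper_not_affine (h𝒞 : IsMathonFamily 𝒞) (p : Collineation K)
    (hp : ¬ IsDenniston (p.act '' arc 𝒞)) :
    ¬ ∃ f₁ f₂ h₁ h₂ : K, (∀ F ∈ 𝒞, F.α = f₁ + f₂ * F.lam) ∧
      (∀ F ∈ 𝒞, F.β = h₁ + h₂ * F.lam) := by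
  rintro ⟨f₁, f₂, h₁, h₂, hα, hβ⟩
  exact hp (denniston_of_affine h𝒞 p f₁ f₂ h₁ h₂ hα hβ)

/-- The induced group of a proper arc is cyclic, its order divides `h` and lies in
`{1, 2, 3, 4, 7}`. -/
theorem group_proper (h𝒞 : IsMathonFamily 𝒞) (p : Collineation K)
    (hp : ¬ IsDenniston (p.act '' arc 𝒞)) :
    IsCyclic (inducedGroup 𝒞 p) ∧
    Nat.card (inducedGroup 𝒞 p) ∣ Module.finrank (ZMod 2) K ∧
    Nat.card (inducedGroup 𝒞 p) ∈ ({1, 2, 3, 4, 7} : Set ℕ) := by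
  have hna := proper_not_affine h𝒞 p hp
  -- the first projection is injective
  let φ : pairGroup 𝒞 →* (K ≃ₐ[ZMod 2] K) := (MonoidHom.fst _ _).comp (pairGroup 𝒞).subtype
  have hφ : Function.Injective φ := by
    rw [injective_iff_map_eq_one]
    rintro ⟨⟨s, π⟩, g, hg, hg'⟩ h1
    have hs : s = 1 := h1
    subst hs
    have h2 : π = 1 := linear_trivial h𝒞 hna g (fun x => hg x) π hg'
    subst h2
    rfl
  have hc1 : IsCyclic (K ≃ₐ[ZMod 2] K) := inferInstance
  have hc2 : IsCyclic (pairGroup 𝒞) := isCyclic_of_injective φ hφ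
  have hcard1 : Nat.card (pairGroup 𝒞) ∣ Module.finrank (ZMod 2) K := by
    rw [← IsGalois.card_aut_eq_finrank (ZMod 2) K]
    exact Subgroup.card_dvd_of_injective φ hφ
  -- the second projection is onto the induced group
  let ψ : pairGroup 𝒞 →* inducedGroup 𝒞 p :=
    ((MonoidHom.snd _ _).comp (pairGroup 𝒞).subtype).codRestrict (inducedGroup 𝒞 p) (by
      rintro ⟨⟨s, π⟩, g, hg, hg'⟩
      exact (mem_inducedGroup_iff h𝒞 p π).2 ⟨g, hg'⟩)
  have hψ : Function.Surjective ψ := by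
    rintro ⟨π, hπ⟩
    obtain ⟨g, hg⟩ := (mem_inducedGroup_iff h𝒞 p π).1 hπ
    exact ⟨⟨(toAlg g.σ, π), g, fun a => rfl, hg⟩, rfl⟩
  have hc3 : IsCyclic (inducedGroup 𝒞 p) := isCyclic_of_surjective ψ hψ
  refine ⟨hc3, (Subgroup.card_dvd_of_surjective ψ hψ).trans hcard1, ?_⟩
  obtain ⟨x, hx⟩ := hc3.exists_generator
  have hcx : Nat.card (inducedGroup 𝒞 p) = orderOf x := (orderOf_eq_card_of_forall_mem_zpowers hx).symm
  obtain ⟨g, hg⟩ := (mem_inducedGroup_iff h𝒞 p x.1).1 x.2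
  have h3 : x ^ 3 = 1 ∨ x ^ 4 = 1 ∨ x ^ 7 = 1 := by
    rcases acts_order h𝒞 hg with h | h | h
    · exact Or.inl (Subtype.ext h)
    · exact Or.inr (Or.inl (Subtype.ext h))
    · exact Or.inr (Or.inr (Subtype.ext h))
  rw [hcx]
  have h4 : orderOf x ∣ 3 ∨ orderOf x ∣ 4 ∨ orderOf x ∣ 7 := by
    rcases h3 with h | h | h
    · exact Or.inl (orderOf_dvd_of_pow_eq_one h)
    · exact Or.inr (Or.inl (orderOf_dvd_of_pow_eq_one h))
    · exact Or.inr (Or.inr (orderOf_dvd_of_pow_eq_one h))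
  simp only [Set.mem_insert_iff, Set.mem_singleton_iff]
  generalize orderOf x = n at h4
  rcases h4 with h | h | h
  · have := (Nat.dvd_prime (by norm_num : Nat.Prime 3)).1 h
    omega
  · have hle := Nat.le_of_dvd (by norm_num) h
    interval_cases n <;> omega
  · have := (Nat.dvd_prime (by norm_num : Nat.Prime 7)).1 h
    omega

/-- For `|K| ≥ 32` a collineation which stabilises the arc permutes its seven conics. -/
theorem stabiliser_acts (h𝒞 : IsMathonFamily 𝒞) (hK : 32 ≤ Fintype.card K) (p g : Collineation K)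
    (hg : g.act '' (p.act '' arc 𝒞) = p.act '' arc 𝒞) :
    ∃ π : Equiv.Perm 𝒞, ∀ F : 𝒞, g.act '' (p.act '' F.1.points) = p.act '' (π F).1.points := by
  classical
  have hchar : CharP K 2 := charTwo
  set f := p.inv.comp (g.comp p) with hf
  have hfa : f.act '' arc 𝒞 = arc 𝒞 := by
    rw [hf, image_comp, image_comp, hg, image_inv]
  have hex : ∀ F : 𝒞, ∃ F' : 𝒞, FormMap f F.1 F'.1 ∧ f.d ≠ 0 := by
    intro F
    obtain ⟨F', hF', h1, h2, -⟩ := formMap_of_arc hK f h𝒞 h𝒞 hfa.le F.1 F.2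
    exact ⟨⟨F', hF'⟩, h1, h2⟩
  choose π₀ hπ₀ using hex
  have hinj : Function.Injective π₀ := by
    intro F G hFG
    have h1 := (hπ₀ F).1
    have h2 := (hπ₀ G).1
    rw [← hFG] at h2
    have h3 : F.1.form ![0, 0, 1] = G.1.form ![0, 0, 1] := by
      apply f.σ.injective
      apply mul_left_cancel₀ (hπ₀ F).2
      rw [← h1, ← h2]
    rw [form_nucleus, form_nucleus] at h3
    exact Subtype.ext (lam_inj h𝒞 F.2 G.2 h3)
  have hbij : Function.Bijective π₀ := Finite.injective_iff_bijective.1 hinj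
  refine ⟨Equiv.ofBijective π₀ hbij, fun F => ?_⟩
  have h1 := (hπ₀ F).1.image (h𝒞.lam_ne _ (π₀ F).2)
  have h2 : p.act '' (f.act '' F.1.points) = g.act '' (p.act '' F.1.points) := by
    rw [hf, image_comp, image_comp, image_inv']
  rw [← h2, h1]
  rfl

end Pool.Agent.D0H25.Mathon
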