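import Pool.Agent.D0H25.Mathon.Family

set_option autoImplicit false

/-!
A linear collineation acting non-trivially on the conics exists for the Denniston type only.
-/

namespace Pool.Agent.D0H25.Mathon

open scoped LinearAlgebra.Projectivization

variable {K : Type} [Field K] [Fintype K] [Algebra (ZMod 2) K]

variable {𝒞 : Finset (Conic K)}

omit [Fintype K] in
theorem third (h𝒞 : IsMathonFamily 𝒞) (π : Equiv.Perm 𝒞) (k : K) (hk : k ^ 3 = k + 1)
    (hlam : ∀ F : 𝒞, (π F).1.lam = k * F.1.lam) (F : 𝒞) :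
    (π (π (π F))).1 = F.1.oplus (π F).1 ∧ F.1 ≠ (π F).1 ∧ F.1.lam + (π F).1.lam ≠ 0 := by
  have hchar : CharP K 2 := charTwo
  have h2 : (2 : K) = 0 := CharTwo.two_eq_zero
  have hk1 : k ≠ 1 := by
    rintro rfl
    have h3 : (1 : K) = 0 := by linear_combination hk - h2 + 2 * h2
    exact one_ne_zero h3
  have hne : F.1 ≠ (π F).1 := by
    intro h
    have h1 := hlam F
    rw [← h] at h1
    have h3 : (k - 1) * F.1.lam = 0 := by linear_combination -h1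
    rcases mul_eq_zero.1 h3 with h4 | h4
    · exact hk1 (sub_eq_zero.1 h4)
    · exact h𝒞.lam_ne _ F.2 h4
  have hs := add_lam_ne h𝒞 F.2 (π F).2 hne
  refine ⟨lam_inj h𝒞 (π (π (π F))).2 (h𝒞.closed _ F.2 _ (π F).2 hne).2 ?_, hne, hs⟩
  show _ = F.1.lam + (π F).1.lam
  rw [hlam, hlam, hlam]
  linear_combination F.1.lam * hk

omit [Fintype K] in
/-- The function `P` measuring the `λ³`-part vanishes: then `α` is affine in `λ`. -/
theorem affine_of_vanish (h𝒞 : IsMathonFamily 𝒞) (π : Equiv.Perm 𝒞) (k : K) (hk : k ^ 3 = k + 1)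
    (hlam : ∀ F : 𝒞, (π F).1.lam = k * F.1.lam) (A : 𝒞 → K)
    (hA : ∀ F : 𝒞, A (π (π F)) + (1 + k) * A (π F) + k * A F = 0) :
    ∃ f₁ f₂ : K, ∀ F : 𝒞, A F = f₁ + f₂ * F.1.lam := by
  classical
  have hchar : CharP K 2 := charTwo
  have h2 : (2 : K) = 0 := CharTwo.two_eq_zero
  have hk0 : k ≠ 0 := by
    rintro rfl
    simp at hk
  have hk1 : k ≠ 1 := by
    rintro rfl
    have h3 : (1 : K) = 0 := by linear_combination hk - h2 + 2 * h2
    exact one_ne_zero h3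
  have hk7 : k ^ 7 = 1 := by
    linear_combination (k ^ 4 + k ^ 2 + k + 1) * hk + (k ^ 2 + k) * h2
  have hord : orderOf k = 7 := by
    have h7 : Fact (Nat.Prime 7) := ⟨by norm_num⟩
    exact orderOf_eq_prime hk7 hk1
  obtain ⟨F₀⟩ : Nonempty 𝒞 := by
    rw [Finset.nonempty_coe_sort, ← Finset.card_pos, h𝒞.card]
    norm_num
  have hl0 := h𝒞.lam_ne _ F₀.2
  have hpow : ∀ i : ℕ, ((π ^ i) F₀).1.lam = k ^ i * F₀.1.lam := by
    intro i
    induction i with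
    | zero => simp
    | succ n ih =>
      rw [pow_succ', Equiv.Perm.mul_apply, hlam, ih]
      ring
  -- transitivity
  have hsurj : ∀ F : 𝒞, ∃ i : ℕ, (π ^ i) F₀ = F := by
    have hinj : Function.Injective (fun i : Fin 7 => (π ^ (i : ℕ)) F₀) := by
      intro i j hij
      have h3 : ((π ^ (i : ℕ)) F₀).1.lam = ((π ^ (j : ℕ)) F₀).1.lam := by
        have : (π ^ (i : ℕ)) F₀ = (π ^ (j : ℕ)) F₀ := hij
        rw [this]
      rw [hpow, hpow] at h3
      have h4 : k ^ (i : ℕ) = k ^ (j : ℕ) := mul_right_cancel₀ hl0 h3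
      have h5 := pow_injOn_Iio_orderOf (x := k) (by rw [hord]; exact i.2)
        (by rw [hord]; exact j.2) h4
      exact Fin.ext h5
    have hbij : Function.Bijective (fun i : Fin 7 => (π ^ (i : ℕ)) F₀) := by
      rw [Fintype.bijective_iff_injective_and_card]
      refine ⟨hinj, ?_⟩
      rw [Fintype.card_fin, Fintype.card_coe, h𝒞.card]
    intro F
    obtain ⟨i, hi⟩ := hbij.2 F
    exact ⟨i, hi⟩
  have h1k : F₀.1.lam * (1 + k) ≠ 0 := by
    refine mul_ne_zero hl0 ?_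
    intro h
    apply hk1
    linear_combination h - h2
  set f₂ := (A (π F₀) + A F₀) / (F₀.1.lam * (1 + k)) with hf₂
  have hf₂' : f₂ * (F₀.1.lam * (1 + k)) = A (π F₀) + A F₀ := div_mul_cancel₀ _ h1k
  set f₁ := A F₀ + f₂ * F₀.1.lam with hf₁
  have key : ∀ i : ℕ, A ((π ^ i) F₀) = f₁ + f₂ * ((π ^ i) F₀).1.lam ∧
      A ((π ^ (i + 1)) F₀) = f₁ + f₂ * ((π ^ (i + 1)) F₀).1.lam := by
    intro i
    induction i with
    | zero =>
      constructor
      · simp only [pow_zero, Equiv.Perm.one_apply]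
        rw [hf₁]
        linear_combination -(f₂ * F₀.1.lam) * h2
      · rw [zero_add, pow_one, hlam, hf₁]
        linear_combination -hf₂' - A F₀ * h2 + f₂ * F₀.1.lam * k * h2 * 0
    | succ n ih =>
      refine ⟨ih.2, ?_⟩
      obtain ⟨ih1, ih2⟩ := ih
      have h3 := hA ((π ^ n) F₀)
      have e1 : π ((π ^ n) F₀) = (π ^ (n + 1)) F₀ := by rw [pow_succ', Equiv.Perm.mul_apply]
      have e2 : π ((π ^ (n + 1)) F₀) = (π ^ (n + 1 + 1)) F₀ := by
        rw [pow_succ' π (n + 1), Equiv.Perm.mul_apply]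
      rw [e1, e2] at h3
      rw [ih1, ih2] at h3
      rw [hpow, hpow] at h3
      rw [hpow]
      linear_combination h3 - (f₁ * (1 + k) + f₂ * F₀.1.lam * (k ^ (n + 1) + k ^ (n + 2))) * h2
  refine ⟨f₁, f₂, fun F => ?_⟩
  obtain ⟨i, rfl⟩ := hsurj F
  exact (key i).1

omit [Fintype K] [Algebra (ZMod 2) K] in
theorem shift_aux (h2 : (2 : K) = 0) (k A0 A1 A2 A3 : K) (hk : k ^ 3 = k + 1)
    (h3 : k ^ 3 * A3 = A0 + k * A1) :
    A3 + (1 + k) * A2 + k * A1 = k ^ 3 * (A2 + (1 + k) * A1 + k * A0) := by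
  have hk0 : k ≠ 0 := by
    rintro rfl
    simp at hk
  apply mul_left_cancel₀ (pow_ne_zero 3 hk0)
  linear_combination h3 + (-A0 - A0 * k - A0 * k ^ 2 - A0 * k ^ 4 - 2 * A1 - A1 * k - A1 * k ^ 2 -
    A1 * k ^ 3 - A1 * k ^ 4 - A2 * k ^ 3) * hk +
    (-A0 * k - A0 * k ^ 2 - A1 - A1 * k - A1 * k ^ 2) * h2

/-- A linear collineation which multiplies the parameters `λ` by an element `k` with
`k³ = k + 1` exists only if `α` and `β` are affine functions of `λ`. -/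
theorem linear_aux (h𝒞 : IsMathonFamily 𝒞) (g : Collineation K) (hσ : ∀ x, g.σ x = x)
    (π : Equiv.Perm 𝒞) (hmap : ∀ F : 𝒞, FormMap g F.1 (π F).1) (hd : g.d ≠ 0)
    (h20 : (g.e ![0, 0, 1]) 0 = 0) (h21 : (g.e ![0, 0, 1]) 1 = 0) (k : K) (hk : k ^ 3 = k + 1)
    (hlam : ∀ F : 𝒞, (π F).1.lam = k * F.1.lam) (hcd : k * (g.e ![0, 0, 1]) 2 ^ 2 = g.d) :
    ∃ f₁ f₂ h₁ h₂ : K, (∀ F ∈ 𝒞, F.α = f₁ + f₂ * F.lam) ∧
      (∀ F ∈ 𝒞, F.β = h₁ + h₂ * F.lam) := by
  classical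
  have hchar : CharP K 2 := charTwo
  have h2 : (2 : K) = 0 := CharTwo.two_eq_zero
  have hk0 : k ≠ 0 := by
    rintro rfl
    simp at hk
  have hk1 : 1 + k ≠ 0 := by
    intro h
    have h3 : k ^ 3 = 0 := by linear_combination hk + h
    exact hk0 (pow_eq_zero_iff (by norm_num) |>.1 h3)
  by_contra hcon
  set a := (g.e ![1, 0, 0]) 0 with ha
  set b := (g.e ![1, 0, 0]) 1 with hb
  set e := (g.e ![1, 0, 0]) 2 with he
  set a' := (g.e ![0, 1, 0]) 0 with ha'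
  set b' := (g.e ![0, 1, 0]) 1 with hb'
  set e' := (g.e ![0, 1, 0]) 2 with he'
  set c := (g.e ![0, 0, 1]) 2 with hc
  have hdd : g.d = a * b' + b * a' := rfl
  have hc0 : c ≠ 0 := by
    intro h
    rw [h] at hcd
    apply hd
    rw [← hcd]
    ring
  have hα : ∀ F : 𝒞, (π F).1.α * a ^ 2 + a * b + (π F).1.β * b ^ 2 + k * F.1.lam * e ^ 2 =
      g.d * F.1.α := by
    intro F
    have h := (hmap F).coeffs.1
    rw [hσ] at h
    rw [← h, ← hlam]
    rfl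
  have hβ : ∀ F : 𝒞, (π F).1.α * a' ^ 2 + a' * b' + (π F).1.β * b' ^ 2 + k * F.1.lam * e' ^ 2 =
      g.d * F.1.β := by
    intro F
    have h := (hmap F).coeffs.2.1
    rw [hσ] at h
    rw [← h, ← hlam]
    rfl
  have hthird := third h𝒞 π k hk hlam
  have hl : ∀ F : 𝒞, F.1.lam ≠ 0 := fun F => h𝒞.lam_ne _ F.2
  have hα3 : ∀ F : 𝒞, k ^ 3 * (π (π (π F))).1.α = F.1.α + k * (π F).1.α := by
    intro F
    obtain ⟨h3, -, hs⟩ := hthird F
    rw [h3]
    show k ^ 3 * ((F.1.α * F.1.lam + (π F).1.α * (π F).1.lam) / (F.1.lam + (π F).1.lam)) = _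
    rw [hlam] at hs ⊢
    rw [mul_div_assoc', div_eq_iff hs]
    linear_combination (F.1.lam * (F.1.α + k * (π F).1.α)) * hk
  have hβ3 : ∀ F : 𝒞, k ^ 3 * (π (π (π F))).1.β = F.1.β + k * (π F).1.β := by
    intro F
    obtain ⟨h3, -, hs⟩ := hthird F
    rw [h3]
    show k ^ 3 * ((F.1.β * F.1.lam + (π F).1.β * (π F).1.lam) / (F.1.lam + (π F).1.lam)) = _
    rw [hlam] at hs ⊢
    rw [mul_div_assoc', div_eq_iff hs]
    linear_combination (F.1.lam * (F.1.β + k * (π F).1.β)) * hk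
  have hex : ∃ F : 𝒞, ¬ ((π (π F)).1.α + (1 + k) * (π F).1.α + k * F.1.α = 0 ∧
      (π (π F)).1.β + (1 + k) * (π F).1.β + k * F.1.β = 0) := by
    by_contra hno
    push Not at hno
    obtain ⟨f₁, f₂, hf⟩ := affine_of_vanish h𝒞 π k hk hlam (fun F => F.1.α) (fun F => (hno F).1)
    obtain ⟨h₁, h₂, hh⟩ := affine_of_vanish h𝒞 π k hk hlam (fun F => F.1.β) (fun F => (hno F).2)
    exact hcon ⟨f₁, f₂, h₁, h₂, fun F hF => hf ⟨F, hF⟩, fun F hF => hh ⟨F, hF⟩⟩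
  obtain ⟨F, hF⟩ := hex
  set p := (π (π F)).1.α + (1 + k) * (π F).1.α + k * F.1.α with hp
  set r := (π (π F)).1.β + (1 + k) * (π F).1.β + k * F.1.β with hr
  have hsp := shift_aux h2 k F.1.α (π F).1.α (π (π F)).1.α (π (π (π F))).1.α hk (hα3 F)
  have hsr := shift_aux h2 k F.1.β (π F).1.β (π (π F)).1.β (π (π (π F))).1.β hk (hβ3 F)
  rw [← hp] at hsp
  rw [← hr] at hsr
  have e1 : g.d * p = k ^ 3 * (a ^ 2 * p + b ^ 2 * r) := by
    have E0 := hα F
    have E1 := hα (π F)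
    have E2 := hα (π (π F))
    rw [hlam] at E1
    rw [hlam, hlam] at E2
    rw [hp]
    linear_combination -(E2 + (1 + k) * E1 + k * E0) + a ^ 2 * hsp + b ^ 2 * hsr + (2 * e ^ 2 * F.1.lam) * hk + (a * b + a * b * k +
      e ^ 2 * k * F.1.lam + e ^ 2 * k ^ 2 * F.1.lam + e ^ 2 * F.1.lam) * h2
  have e2 : g.d * r = k ^ 3 * (a' ^ 2 * p + b' ^ 2 * r) := by
    have E0 := hβ F
    have E1 := hβ (π F)
    have E2 := hβ (π (π F))
    rw [hlam] at E1
    rw [hlam, hlam] at E2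
    rw [hr]
    linear_combination -(E2 + (1 + k) * E1 + k * E0) + a' ^ 2 * hsp + b' ^ 2 * hsr + (2 * e' ^ 2 * F.1.lam) * hk +
      (a' * b' + a' * b' * k +
      e' ^ 2 * k * F.1.lam + e' ^ 2 * k ^ 2 * F.1.lam + e' ^ 2 * F.1.lam) * h2
  -- the determinant
  have hΔ : (g.d + k ^ 3 * a ^ 2) * (g.d + k ^ 3 * b' ^ 2) - k ^ 6 * a' ^ 2 * b ^ 2 = 0 := by
    have q1 : ((g.d + k ^ 3 * a ^ 2) * (g.d + k ^ 3 * b' ^ 2) - k ^ 6 * a' ^ 2 * b ^ 2) * p = 0 := by
      linear_combination (g.d + k ^ 3 * b' ^ 2) * e1 + k ^ 3 * b ^ 2 * e2 +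
        (k ^ 3 * a ^ 2 * g.d * p + k ^ 6 * a ^ 2 * b' ^ 2 * p + k ^ 6 * b ^ 2 * b' ^ 2 * r) * h2
    have q2 : ((g.d + k ^ 3 * a ^ 2) * (g.d + k ^ 3 * b' ^ 2) - k ^ 6 * a' ^ 2 * b ^ 2) * r = 0 := by
      linear_combination (g.d + k ^ 3 * a ^ 2) * e2 + k ^ 3 * a' ^ 2 * e1 +
        (k ^ 3 * b' ^ 2 * g.d * r + k ^ 6 * a ^ 2 * b' ^ 2 * r + k ^ 6 * a ^ 2 * a' ^ 2 * p) * h2
    by_contra hne
    exact hF ⟨(mul_eq_zero.1 q1).resolve_left hne, (mul_eq_zero.1 q2).resolve_left hne⟩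
  have htr2 : (a + b') ^ 2 * k = g.d := by
    have q3 : g.d * (k ^ 2 * ((a + b') ^ 2 * k - g.d)) = 0 := by
      rw [hdd] at hΔ ⊢
      linear_combination hΔ - (-2 * a * a' * b * b' - a ^ 2 * b' ^ 2 + a ^ 2 * b' ^ 2 * k +
        a ^ 2 * b' ^ 2 * k ^ 3 - a' ^ 2 * b ^ 2 - a' ^ 2 * b ^ 2 * k - a' ^ 2 * b ^ 2 * k ^ 3) * hk -
        (-a * a' * b * b' * k + a * a' * b * b' * k ^ 2 + a ^ 2 * b' ^ 2 * k ^ 2 -
          a' ^ 2 * b ^ 2 * k) * h2
    have q4 := (mul_eq_zero.1 q3).resolve_left hd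
    have q5 := (mul_eq_zero.1 q4).resolve_left (pow_ne_zero 2 hk0)
    exact sub_eq_zero.1 q5
  have htr : a + b' = c := by
    have q6 : (a + b' - c) ^ 2 = 0 := by
      apply mul_left_cancel₀ hk0
      rw [mul_zero]
      linear_combination htr2 - hcd + (k * c ^ 2 - k * (a + b') * c) * h2
    exact sub_eq_zero.1 (pow_eq_zero_iff (by norm_num) |>.1 q6)
  -- an eigenvector for the eigenvalue `c k²`
  set z := c * k ^ 2 with hz
  have hdet : (a + z) * (b' + z) + a' * b = 0 := by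
    rw [hdd] at hcd
    rw [hz]
    linear_combination (c * k ^ 2) * htr - hcd + (c ^ 2 * k) * hk + (c ^ 2 * k + c ^ 2 * k ^ 2) * h2
  have hxy : ∃ x y : K, ¬ (x = 0 ∧ y = 0) ∧ (a + z) * x + a' * y = 0 ∧ b * x + (b' + z) * y = 0 := by
    by_cases h1 : a' = 0 ∧ a + z = 0
    · by_cases h3 : b' + z = 0 ∧ b = 0
      · exact ⟨1, 0, by simp, by rw [h1.2]; ring, by rw [h3.2]; ring⟩
      · refine ⟨b' + z, b, h3, ?_, ?_⟩
        · linear_combination hdet
        · linear_combination (b * (b' + z)) * h2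
    · refine ⟨a', a + z, h1, ?_, ?_⟩
      · linear_combination (a' * (a + z)) * h2
      · linear_combination hdet
  obtain ⟨x, y, hxy0, hx, hy⟩ := hxy
  have hzc : z + c ≠ 0 := by
    have : z + c = c * (1 + k) ^ 2 := by
      rw [hz]
      linear_combination -(c * k) * h2
    rw [this]
    exact mul_ne_zero hc0 (pow_ne_zero 2 hk1)
  set w2 := (x * e + y * e') / (z + c) with hw2
  have hw2' : w2 * (z + c) = x * e + y * e' := div_mul_cancel₀ _ hzc
  have heig : g.e ![x, y, w2] = z • ![x, y, w2] := by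
    rw [apply_eq, hσ, hσ, hσ]
    funext i
    fin_cases i
    · show x * a + y * a' + w2 * (g.e ![0, 0, 1]) 0 = z * x
      rw [h20]
      linear_combination hx - z * x * h2
    · show x * b + y * b' + w2 * (g.e ![0, 0, 1]) 1 = z * y
      rw [h21]
      linear_combination hy - z * y * h2
    · show x * e + y * e' + w2 * c = z * w2
      linear_combination -hw2' + w2 * c * h2
  have hw0 : (![x, y, w2] : Fin 3 → K) ≠ 0 := by
    intro h
    exact hxy0 ⟨congrFun h 0, congrFun h 1⟩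
  set w : Fin 3 → K := ![x, y, w2] with hw
  have hstep : ∀ G : 𝒞, k ^ 3 * (π G).1.form w = G.1.form w := by
    intro G
    have h := hmap G w
    rw [heig, form_smul, hσ, ← hcd] at h
    apply mul_left_cancel₀ (mul_ne_zero hk0 (pow_ne_zero 2 hc0))
    rw [hz] at h
    linear_combination h
  have hzero : ∀ G : 𝒞, G.1.form w = 0 := by
    intro G
    obtain ⟨h3, -, hs⟩ := hthird G
    have h4 := oplus_form G.1 (π G).1 h2 hs w
    rw [← h3, hlam] at h4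
    have h5 : (1 + k) * (π (π (π G))).1.form w = G.1.form w + k * (π G).1.form w := by
      apply mul_left_cancel₀ (hl G)
      linear_combination h4
    have h6 := hstep G
    have h7 := hstep (π G)
    have h8 := hstep (π (π G))
    have h9 : k * (1 + k) * (π (π (π G))).1.form w = 0 := by
      generalize (π (π (π G))).1.form w = f3 at *
      generalize (π (π G)).1.form w = f2 at *
      generalize (π G).1.form w = f1 at *
      generalize G.1.form w = f0 at *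
      linear_combination -h5 + h6 + (k ^ 3 + k) * h7 + (k ^ 3 + k) * k ^ 3 * h8 + (-3 * f3 - 3 * f3 * k - 2 * f3 * k ^ 2 -
        f3 * k ^ 3 - 2 * f3 * k ^ 4 - f3 * k ^ 6) * hk + (-f3 - 2 * f3 * k - 2 * f3 * k ^ 2) * h2
    have h10 := (mul_eq_zero.1 h9).resolve_left (mul_ne_zero hk0 hk1)
    rw [← h6, ← h7, ← h8, h10]
    ring
  obtain ⟨-, hne, -⟩ := hthird F
  exact hw0 (disjoint h𝒞 F.2 (π F).2 hne (hzero F) (hzero (π F)))

/-- `g` maps the conic `F` onto the conic `π F` for all `F` in the family. -/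
def Acts (𝒞 : Finset (Conic K)) (g : Collineation K) (π : Equiv.Perm 𝒞) : Prop :=
  ∀ F : 𝒞, g.act '' F.1.points = (π F).1.points

omit [Fintype K] [Algebra (ZMod 2) K] in
theorem Acts.inv {g : Collineation K} {π : Equiv.Perm 𝒞} (h : Acts 𝒞 g π) :
    Acts 𝒞 g.inv π⁻¹ := by
  intro F
  have h1 := h (π⁻¹ F)
  have h2 : π (π⁻¹ F) = F := π.apply_symm_apply F
  rw [h2] at h1
  rw [← h1, image_inv]

omit [Fintype K] [Algebra (ZMod 2) K] in
theorem Acts.comp {g g' : Collineation K} {π π' : Equiv.Perm 𝒞} (h : Acts 𝒞 g π)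
    (h' : Acts 𝒞 g' π') : Acts 𝒞 (g.comp g') (π * π') := by
  intro F
  rw [image_comp, h' F, h (π' F)]
  rfl

theorem Acts.formMap {g : Collineation K} {π : Equiv.Perm 𝒞} (h𝒞 : IsMathonFamily 𝒞)
    (h : Acts 𝒞 g π) (F : 𝒞) :
    FormMap g F.1 (π F).1 ∧ g.d ≠ 0 ∧ (g.e ![0, 0, 1]) 0 = 0 ∧ (g.e ![0, 0, 1]) 1 = 0 := by
  have hchar : CharP K 2 := charTwo
  exact formMap_of_subset (by have := card_ge h𝒞; omega) g F.1 (π F).1 (h𝒞.lam_ne _ F.2)
    (h𝒞.lam_ne _ (π F).2) (h F).le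

theorem Acts.lam {g : Collineation K} {π : Equiv.Perm 𝒞} (h𝒞 : IsMathonFamily 𝒞)
    (h : Acts 𝒞 g π) (F : 𝒞) :
    (π F).1.lam * (g.e ![0, 0, 1]) 2 ^ 2 = g.d * g.σ F.1.lam := by
  obtain ⟨h1, -, h3, h4⟩ := h.formMap h𝒞 F
  have h5 := h1.coeffs.2.2
  rw [Conic.form, h3, h4] at h5
  linear_combination h5

theorem Acts.c_ne {g : Collineation K} {π : Equiv.Perm 𝒞} (h𝒞 : IsMathonFamily 𝒞)
    (h : Acts 𝒞 g π) (F : 𝒞) : (g.e ![0, 0, 1]) 2 ≠ 0 := by
  intro h0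
  obtain ⟨-, -, h3, h4⟩ := h.formMap h𝒞 F
  apply g.map_ne_zero nucleus_ne
  funext i
  fin_cases i
  · exact h3
  · exact h4
  · exact h0

theorem linear_aux' (h𝒞 : IsMathonFamily 𝒞) (g : Collineation K) (hσ : ∀ x, g.σ x = x)
    (π : Equiv.Perm 𝒞) (h : Acts 𝒞 g π) (k : K) (hk : k ^ 3 = k + 1)
    (hlam : ∀ F : 𝒞, (π F).1.lam = k * F.1.lam) :
    ∃ f₁ f₂ h₁ h₂ : K, (∀ F ∈ 𝒞, F.α = f₁ + f₂ * F.lam) ∧
      (∀ F ∈ 𝒞, F.β = h₁ + h₂ * F.lam) := by
  obtain ⟨F₀⟩ : Nonempty 𝒞 := by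
    rw [Finset.nonempty_coe_sort, ← Finset.card_pos, h𝒞.card]
    norm_num
  obtain ⟨-, h2, h3, h4⟩ := h.formMap h𝒞 F₀
  refine linear_aux h𝒞 g hσ π (fun F => (h.formMap h𝒞 F).1) h2 h3 h4 k hk hlam ?_
  have h5 := h.lam h𝒞 F₀
  rw [hlam, hσ] at h5
  apply mul_right_cancel₀ (h𝒞.lam_ne _ F₀.2)
  linear_combination h5

/-- A linear collineation acts trivially on the conics unless `α` and `β` are affine functions of
`λ`. -/
theorem linear_trivial (h𝒞 : IsMathonFamily 𝒞)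
    (hprop : ¬ ∃ f₁ f₂ h₁ h₂ : K, (∀ F ∈ 𝒞, F.α = f₁ + f₂ * F.lam) ∧
      (∀ F ∈ 𝒞, F.β = h₁ + h₂ * F.lam))
    (g : Collineation K) (hσ : ∀ x, g.σ x = x) (π : Equiv.Perm 𝒞) (h : Acts 𝒞 g π) : π = 1 := by
  classical
  have hchar : CharP K 2 := charTwo
  have h2 : (2 : K) = 0 := CharTwo.two_eq_zero
  obtain ⟨F₀⟩ : Nonempty 𝒞 := by
    rw [Finset.nonempty_coe_sort, ← Finset.card_pos, h𝒞.card]
    norm_num
  have hc := h.c_ne h𝒞 F₀
  have hd := (h.formMap h𝒞 F₀).2.1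
  set c := (g.e ![0, 0, 1]) 2 with hcdef
  set k := g.d / c ^ 2 with hkdef
  have hkc : k * c ^ 2 = g.d := div_mul_cancel₀ _ (pow_ne_zero 2 hc)
  have hk0 : k ≠ 0 := by
    intro h0
    rw [h0, zero_mul] at hkc
    exact hd hkc.symm
  have hlam : ∀ F : 𝒞, (π F).1.lam = k * F.1.lam := by
    intro F
    have h5 := h.lam h𝒞 F
    rw [hσ] at h5
    apply mul_right_cancel₀ (pow_ne_zero 2 hc)
    linear_combination h5 - F.1.lam * hkc
  have hk7 : k ^ 7 = 1 := by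
    have h6 : ∏ F : 𝒞, (π F).1.lam = ∏ F : 𝒞, F.1.lam := Equiv.prod_comp π (fun F : 𝒞 => F.1.lam)
    simp_rw [hlam] at h6
    rw [Finset.prod_mul_distrib, Finset.prod_const, Finset.card_univ, Fintype.card_coe,
      h𝒞.card] at h6
    have h7 : ∏ F : 𝒞, F.1.lam ≠ 0 := Finset.prod_ne_zero_iff.2 fun F _ => h𝒞.lam_ne _ F.2
    exact mul_right_cancel₀ h7 (by rw [h6, one_mul])
  by_cases hk1 : k = 1
  · ext F : 1
    apply Subtype.ext
    apply lam_inj h𝒞 (π F).2 F.2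
    rw [hlam, hk1, one_mul]
  · exfalso
    have h8 : (k - 1) * ((k ^ 3 - (k + 1)) * (k ^ 3 + k ^ 2 + 1)) = 0 := by
      linear_combination hk7 + (1 - k ^ 5) * h2
    rcases mul_eq_zero.1 h8 with h9 | h9
    · exact hk1 (sub_eq_zero.1 h9)
    rcases mul_eq_zero.1 h9 with h10 | h10
    · exact hprop (linear_aux' h𝒞 g hσ π h k (sub_eq_zero.1 h10) hlam)
    · refine hprop (linear_aux' h𝒞 g.inv ?_ π⁻¹ h.inv k⁻¹ ?_ ?_)
      · intro x
        show g.σ.symm x = x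
        rw [RingEquiv.symm_apply_eq, hσ]
      · field_simp
        linear_combination -h10 + h2
      · intro F
        have h11 := hlam (π⁻¹ F)
        have h12 : π (π⁻¹ F) = F := π.apply_symm_apply F
        rw [h12] at h11
        rw [h11]
        field_simp

end Pool.Agent.D0H25.Mathon
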